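import Pool.Agent.AT.SU.Final

/-!
# The complexified volume conjecture for alternating trees, Kashaev's invariant and the colored
`SU(n)` invariants
-/

set_option autoImplicit false

namespace Pool.Agent.AT.SU

open Pool.Agent.S4 Pool.Agent.S3 Pool.Agent.S3.E Pool.Agent.H63.VC7
open Pool.Agent.H63.VC10 (coloredJones)
open Pool.Agent.H63.VC11 (coloredSU)
open Complex Filter Topology
open scoped BigOperators

/-- From a critical point. -/
theorem all_tr {m : ℕ} [Tr m] (hm : 1 ≤ m) (b : Fin (m + 1) → ℕ) (σ : Fin (m + 1) → ℤ)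
    (h3 : ∀ i, 3 ≤ b i) (hd : ∀ i, (inc (Tr.par (m := m)) Fin.succ i).card ≤ b i)
    (hσ : ∀ i, σ i = 1 ∨ σ i = -1) (hs : ∀ j : Fin m, σ j.succ = -σ (Tr.par j)) :
    ∃ (V : ℝ) (Z : ℂ), Hyp.IsVolume (Tr.par (m := m)) Fin.succ (fun i => σ i * (b i : ℤ)) V ∧
      Hyp.IsComplexVolume (Tr.par (m := m)) Fin.succ (fun i => σ i * (b i : ℤ)) Z ∧
      (∀ e : ℤ, ∃ C : ℝ, (∃ k : ℤ, Z = I * (V + C * I) + k * (Real.pi : ℂ) ^ 2) ∧
        ∃ J : ℕ → ℂ,
          (∀ N : ℕ, Tendsto (fun q => coloredJones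
            (Pool.Agent.H63.VC10.diagram (Tr.par (m := m)) (fun i => σ i * (b i : ℤ))) e N q)
            (𝓝[≠] exp (Real.pi * I / ((N + 1 : ℕ) : ℂ))) (𝓝 (J N))) ∧
          (∃ L : ℕ → ℂ, (∀ᶠ N : ℕ in atTop, exp (L N) = J N) ∧
            Tendsto (fun N : ℕ => 2 * (Real.pi : ℂ) * L N / (N + 1)) atTop (𝓝 (V + C * I))) ∧
          Tendsto (fun N : ℕ => 2 * (Real.pi : ℂ) * log (J N) / (N + 1)) atTop (𝓝 (V : ℂ)) ∧
          ∃ κ : ℂ, κ ≠ 0 ∧ Tendsto (fun N : ℕ => J N /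
            ((((N : ℝ) + 1) ^ (3 / 2 : ℝ) : ℝ) *
              exp ((N + 1) * (V + C * I) / (2 * Real.pi)))) atTop (𝓝 κ)) ∧
      ∀ r : Fin (m + 1) → ℤ, (∀ i, σ i * (b i : ℤ) = 2 * r i) →
        ∃ C : ℝ, (∃ k : ℤ, Z = I * (V + C * I) + k * (Real.pi : ℂ) ^ 2) ∧
        ∀ n g : ℕ, 2 ≤ n → 1 ≤ g → g < n → ∃ J : ℕ → ℂ,
          (∀ N : ℕ, n ≤ N → Tendsto (fun q => coloredSU
            (Pool.Agent.H63.VC11.diagram (Tr.par (m := m)) r) n N q)
            (𝓝[≠] exp (Real.pi * I / (N + g))) (𝓝 (J N))) ∧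
          (∃ L : ℕ → ℂ, (∀ᶠ N : ℕ in atTop, exp (L N) = J N) ∧
            Tendsto (fun N : ℕ => 2 * (Real.pi : ℂ) * L N / (N + 1)) atTop (𝓝 (V + C * I))) ∧
          Tendsto (fun N : ℕ => 2 * (Real.pi : ℂ) * log (J N) / (N + 1)) atTop (𝓝 (V : ℂ)) ∧
          ∃ κ : ℂ, κ ≠ 0 ∧ Tendsto (fun N : ℕ => J N /
            ((((N : ℝ) + g) ^ (2 * (n : ℝ) - 5 / 2) : ℝ) *
              exp ((N + g) * (V + C * I) / (2 * Real.pi)))) atTop (𝓝 κ) := by
  obtain ⟨z, hz, hv, hg, hp⟩ := exists_tz hm b h3 hd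
  have hcs := critS_of hm hz hv hσ hs hg hp
  have hW : Wv b σ z = G.WT (Tr.par (m := m)) Fin.succ (fun i => σ i * (b i : ℤ))
      (cfgOf b σ z).yc (cfgOf b σ z).vc := Wv_eq
  obtain ⟨Z, hZ, k2, hk⟩ := CV.isComplexVolume_of_crit hcs
  refine ⟨2 * Real.pi * (Wv b σ z).re, Z, ?_, hZ, ?_, ?_⟩
  · rw [hW]
    exact hcs.isVolume
  · intro e
    obtain ⟨C, ⟨k1, hC⟩, hJ⟩ := jones_tree hm hz hv hσ hs e
    refine ⟨C, ⟨k2 - k1, ?_⟩, hJ⟩
    rw [hk, hC, hW]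
    push_cast
    ring
  · intro r hr
    obtain ⟨k1, hk1⟩ := C4_spec (fun i => 2 * r i) (Wv b σ z) Finset.univ
    refine ⟨C4 (fun i => 2 * r i) (Wv b σ z) Finset.univ, ⟨k2 - k1, ?_⟩, ?_⟩
    · rw [hk, hk1, hW]
      have e : ∑ i, (((fun i => σ i * (b i : ℤ)) i : ℤ) : ℂ) =
          ∑ i, (((fun i => 2 * r i) i : ℤ) : ℂ) :=
        Finset.sum_congr rfl fun i _ => by rw [show (fun i => σ i * (b i : ℤ)) i =
          (fun i => 2 * r i) i from hr i]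
      rw [e]
      push_cast
      ring
    · intro n g hn hg1 hgn
      exact su_tree hm hz hv hσ hs r hr hn hg1 hgn

/-- **The complexified volume conjecture for alternating trees, Kashaev's invariant and the colored
`SU(n)` invariants.** -/
theorem final_all {m : ℕ} (hm : 1 ≤ m) (par : Fin m → Fin (m + 1))
    (hpar : ∀ j, par j ≤ j.castSucc) (a : Fin (m + 1) → ℤ) (h3 : ∀ i, 3 ≤ |a i|)
    (hs : ∀ j : Fin m, a (par j) * a j.succ < 0)
    (hd : ∀ i, ((Finset.univ.filter fun j : Fin m => par j = i ∨ j.succ = i).card : ℤ) ≤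
      |a i|) :
    ∃ (V : ℝ) (Z : ℂ), Hyp.IsVolume par Fin.succ a V ∧ Hyp.IsComplexVolume par Fin.succ a Z ∧
      (∀ e : ℤ, ∃ C : ℝ, (∃ k : ℤ, Z = I * (V + C * I) + k * (Real.pi : ℂ) ^ 2) ∧
        ∃ J : ℕ → ℂ,
          (∀ N : ℕ, Tendsto (fun q => coloredJones (Pool.Agent.H63.VC10.diagram par a) e N q)
            (𝓝[≠] exp (Real.pi * I / ((N + 1 : ℕ) : ℂ))) (𝓝 (J N))) ∧
          (∃ L : ℕ → ℂ, (∀ᶠ N : ℕ in atTop, exp (L N) = J N) ∧
            Tendsto (fun N : ℕ => 2 * (Real.pi : ℂ) * L N / (N + 1)) atTop (𝓝 (V + C * I))) ∧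
          Tendsto (fun N : ℕ => 2 * (Real.pi : ℂ) * log (J N) / (N + 1)) atTop (𝓝 (V : ℂ)) ∧
          ∃ κ : ℂ, κ ≠ 0 ∧ Tendsto (fun N : ℕ => J N /
            ((((N : ℝ) + 1) ^ (3 / 2 : ℝ) : ℝ) *
              exp ((N + 1) * (V + C * I) / (2 * Real.pi)))) atTop (𝓝 κ)) ∧
      ∀ r : Fin (m + 1) → ℤ, (∀ i, a i = 2 * r i) →
        ∃ C : ℝ, (∃ k : ℤ, Z = I * (V + C * I) + k * (Real.pi : ℂ) ^ 2) ∧
        ∀ n g : ℕ, 2 ≤ n → 1 ≤ g → g < n → ∃ J : ℕ → ℂ,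
          (∀ N : ℕ, n ≤ N → Tendsto (fun q => coloredSU
            (Pool.Agent.H63.VC11.diagram par r) n N q)
            (𝓝[≠] exp (Real.pi * I / (N + g))) (𝓝 (J N))) ∧
          (∃ L : ℕ → ℂ, (∀ᶠ N : ℕ in atTop, exp (L N) = J N) ∧
            Tendsto (fun N : ℕ => 2 * (Real.pi : ℂ) * L N / (N + 1)) atTop (𝓝 (V + C * I))) ∧
          Tendsto (fun N : ℕ => 2 * (Real.pi : ℂ) * log (J N) / (N + 1)) atTop (𝓝 (V : ℂ)) ∧
          ∃ κ : ℂ, κ ≠ 0 ∧ Tendsto (fun N : ℕ => J N /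
            ((((N : ℝ) + g) ^ (2 * (n : ℝ) - 5 / 2) : ℝ) *
              exp ((N + g) * (V + C * I) / (2 * Real.pi)))) atTop (𝓝 κ) := by
  let _ : Tr m := ⟨par, hpar⟩
  have hne : ∀ i, a i ≠ 0 := by
    intro i h0
    have := h3 i
    rw [h0] at this
    simp at this
  have hσ : ∀ i, (a i).sign = 1 ∨ (a i).sign = -1 := by
    intro i
    rcases lt_or_gt_of_ne (hne i) with h | h
    · exact Or.inr (Int.sign_eq_neg_one_of_neg h)
    · exact Or.inl (Int.sign_eq_one_of_pos h)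
  have hab : ∀ i, (a i).sign * ((a i).natAbs : ℤ) = a i := fun i => Int.sign_mul_natAbs (a i)
  have hs' : ∀ j : Fin m, (a j.succ).sign = -(a (Tr.par j)).sign := by
    intro j
    show (a j.succ).sign = -(a (par j)).sign
    have h1 := hs j
    rcases lt_or_gt_of_ne (hne (par j)) with h | h
    · have h2 : 0 < a j.succ := by
        by_contra hn
        push Not at hn
        have := mul_nonneg_of_nonpos_of_nonpos h.le hn
        linarith
      rw [Int.sign_eq_neg_one_of_neg h, Int.sign_eq_one_of_pos h2]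
      rfl
    · have h2 : a j.succ < 0 := by
        by_contra hn
        push Not at hn
        have := mul_nonneg h.le hn
        linarith
      rw [Int.sign_eq_neg_one_of_neg h2, Int.sign_eq_one_of_pos h]
  have key := all_tr hm (fun i => (a i).natAbs) (fun i => (a i).sign)
    (fun i => by
      have h1 := h3 i
      rw [Int.abs_eq_natAbs] at h1
      exact_mod_cast h1)
    (fun i => by
      have h1 := hd i
      have h2 : (inc (Tr.par (m := m)) Fin.succ i).card =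
          (Finset.univ.filter fun j : Fin m => par j = i ∨ j.succ = i).card := rfl
      rw [Int.abs_eq_natAbs, ← h2] at h1
      exact_mod_cast h1) hσ hs'
  simp only [hab] at key
  exact key

end Pool.Agent.AT.SU
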