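import Pool.Agent.AT.CritCfg
import Pool.Agent.AT.Unif
import Pool.Agent.H63.VC.Cross
import Pool.Agent.H63.VC11.Brac11
import Pool.Agent.H63.VC12.Path12
import Pool.Agent.H63.VC4.Checks
import Pool.Agent.S4.G.Defs

/-!
# Trees, colored `SU(n)` invariants: definitions

The strands of all twist regions are antiparallel (`P = false` in `S4`), all twist regions have an
even number of half twists. The index of an edge is `κ = k + n - 2`; `M = N + g`,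
`h = min g (n - g)`.
-/

set_option autoImplicit false

namespace Pool.Agent.AT.SU

open Pool.Agent.H63.VC hiding ext
open Pool.Agent.H63.VC3 Pool.Agent.H63.VC7 Pool.Agent.H25.RK Pool.Agent.S3 Pool.Agent.H63.GO
open Pool.Agent.S4
open Complex Filter Topology
open scoped Interval

variable {m : ℕ} [Tr m]

/-- The edges at a vertex of the tree. -/
def ie (i : Fin (m + 1)) : Finset (Fin m) := inc (Tr.par (m := m)) Fin.succ i

/-- The invariant at the root of unity, up to simple factors. -/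
noncomputable def JG4 (r : Fin (m + 1) → ℝ) (n h M : ℕ) : ℂ :=
  ∑ k ∈ Fintype.piFinset (fun _ : Fin m => Finset.range (M + 2 - n)),
    (∏ j, (w4 n h false M (k j) : ℂ)) * ∏ i, DG4 (r i) n h M false 0 (ie i) k

/-- The part of the invariant with the multi-indices in the product of the sets `S j`. -/
noncomputable def JS4 (r : Fin (m + 1) → ℝ) (n h M : ℕ) (S : Fin m → Finset ℕ) : ℂ :=
  ∑ κ ∈ Fintype.piFinset S, (∏ j, (w4 n h false M (κ j - (n - 2)) : ℂ)) *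
    ∏ i, DG4 (r i) n h M false 0 (ie i) (fun j => κ j - (n - 2))

/-- The part of the invariant with all indices at least `k0 M`. -/
noncomputable def J04 (r : Fin (m + 1) → ℝ) (n h M : ℕ) : ℂ :=
  JS4 r n h M (fun _ => Finset.Ico (k0 M) M)

/-! ### Integrals of vertex functions and kernels over the tree -/

variable (C : Cfg m)

/-- The kernel of the edge `j` on the contours. -/
noncomputable def kkF (K : Fin m → ℕ → Sl → Sl → ℂ) (v1 : Fin (m + 1) → ℝ) (ε : ℝ) (M : ℕ)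
    (j : Fin m) (x : C.Op → ℝ) : ℂ :=
  K j M (slx C.Op C.s (C.gm v1 ε) x (Tr.par j)) (slx C.Op C.s (C.gm v1 ε) x j.succ)

/-- The integrand of the edge `j` on the contours. -/
noncomputable def feF (F : Fin m → ℕ → Sl → Sl → ℂ → ℂ) (v1 : Fin (m + 1) → ℝ) (ε : ℝ) (M : ℕ)
    (j : Fin m) (x : C.Op → ℝ) (s : ℝ) : ℂ :=
  M * F j M (slx C.Op C.s (C.gm v1 ε) x (Tr.par j)) (slx C.Op C.s (C.gm v1 ε) x j.succ)
    (C.yc j + (if h : (Tr.par j) ∈ C.Op then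
        C.L j (Tr.par j) * ((x ⟨Tr.par j, h⟩ : ℂ) - C.xc (Tr.par j)) else 0) +
      (if h : j.succ ∈ C.Op then C.L j j.succ * ((x ⟨j.succ, h⟩ : ℂ) - C.xc j.succ) else 0) + s)

/-- The vertex function on the contour. -/
noncomputable def ggF (g : Fin (m + 1) → ℕ → ℂ → ℂ) (v1 : Fin (m + 1) → ℝ) (ε : ℝ) (M : ℕ)
    (i : C.Op) (x : ℝ) : ℂ := g i M (C.gm v1 ε i x) * C.gm' v1 ε i x

/-- The product of the vertex functions and of the kernels near the critical point. -/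
noncomputable def PhF (F : Fin m → ℕ → Sl → Sl → ℂ → ℂ) (g : Fin (m + 1) → ℕ → ℂ → ℂ) (M : ℕ)
    (z : C.Op ⊕ Fin m → ℂ) : ℂ :=
  (∏ i : C.Op, (g i M (gdv (z (Sum.inl i))) * (1 / (Real.pi * cosh (z (Sum.inl i)))))) *
    ∏ j, (M * F j M (C.slz z (Tr.par j)) (C.slz z j.succ) (C.Yz z j))

/-- The vertex functions and the kernels of a tree. The exponents are `eg i` and `ef j`. -/
structure ChH (K : Fin m → ℕ → Sl → Sl → ℂ) (F : Fin m → ℕ → Sl → Sl → ℂ → ℂ)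
    (g : Fin (m + 1) → ℕ → ℂ → ℂ) (eg : Fin (m + 1) → ℝ) (ef : Fin m → ℝ) : Prop where
  kb : ∀ j, KB (K j)
  kl : ∀ j, KL (K j) (F j)
  kf : ∀ j, KFu (F j)
  kc : ∀ j, KC (K j)
  gb : ∀ i ∈ C.Op, ∀ κ B : ℝ, 0 < κ → ∃ D : ℝ, 0 < D ∧ ∃ p : ℕ, ∀ᶠ M : ℕ in atTop, ∀ v : ℂ,
    0 < v.im → |v.re| ≤ 1 / 2 → κ * (1 / 2 - |v.re|) ≤ v.im → v.im ≤ B →
    ‖g i M v‖ ≤ D * (M : ℝ) ^ p * Real.exp (M * (wr (C.r i) v).re)
  gc : ∀ i ∈ C.Op, ∀ᶠ M : ℕ in atTop, ContinuousOn (g i M) {v | 0 < v.im}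
  gl : ∀ i ∈ C.Op, ∃ A : ℂ, A ≠ 0 ∧ Tendsto (fun p : ℕ × ℂ => g i p.1 p.2 *
    exp (-(p.1 * wr (C.r i) p.2)) / (((p.1 : ℝ) ^ eg i : ℝ) : ℂ)) (atTop ×ˢ 𝓝 (C.vc i)) (𝓝 A)
  fc : ∀ j, ∃ U : Set (C.Op ⊕ Fin m → ℂ), IsOpen U ∧ cp C.ac C.bc ∈ U ∧ ∀ᶠ M : ℕ in atTop,
    ContinuousOn (fun z => F j M (C.slz z (Tr.par j)) (C.slz z j.succ) (C.Yz z j)) U
  fl : ∀ j, ∃ A : ℂ, A ≠ 0 ∧ Tendsto (fun p : ℕ × (C.Op ⊕ Fin m → ℂ) =>
    F j p.1 (C.slz p.2 (Tr.par j)) (C.slz p.2 j.succ) (C.Yz p.2 j) *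
      exp (-(p.1 * (sP (C.Yz p.2 j) (C.slz p.2 (Tr.par j)) +
        sP (C.Yz p.2 j) (C.slz p.2 j.succ)))) / (((p.1 : ℝ) ^ ef j : ℝ) : ℂ))
    (atTop ×ˢ 𝓝 (cp C.ac C.bc)) (𝓝 A)

end Pool.Agent.AT.SU
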