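import Pool.Agent.AT.SU.Defs
import Pool.Agent.H63.VC11.Fin11
import Pool.Agent.S3.FinL
import Pool.Agent.S4.B.Types
import Pool.Agent.S4.F.Fin1

/-!
# From the asymptotics of the state sum to the final statement, for a tree
-/

set_option autoImplicit false

namespace Pool.Agent.AT.SU

open Pool.Agent.S4
open Pool.Agent.H63.VC hiding ext
open Pool.Agent.H63.VC3 Pool.Agent.H63.VC7 Pool.Agent.H63.VC8 Pool.Agent.H63.VC11
open Complex Filter Topology
open scoped BigOperators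

set_option linter.unusedSectionVars false

variable {m : ℕ} [Tr m]

/-! ### The state sum -/

theorem Fin_qcn {n : ℕ} (hn : 2 ≤ n) (M k : ℕ) (v : ℂ) :
    qcn n M k v = q4 M (n - 2) (M + 1 - n - k) v := by
  unfold qcn q4
  congr 1
  refine Finset.prod_congr rfl fun i _ => ?_
  have e : (bt n : ℂ) = (((n - 2 : ℕ) : ℂ) + 1) / 2 := by
    unfold bt
    rw [Nat.cast_sub hn]
    push_cast
    ring
  rw [e]

theorem Fin_Bn {n : ℕ} (hn : 2 ≤ n) (M : ℕ) (v : ℂ) : Bn n M v = Wd M (n - 2) v := by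
  unfold Bn Wd
  refine Finset.prod_congr rfl fun j _ => ?_
  have e : (j : ℂ) + 1 - bt n = (j : ℂ) + 1 / 2 - ((n - 2 : ℕ) : ℂ) / 2 := by
    unfold bt
    rw [Nat.cast_sub hn]
    push_cast
    ring
  rw [e]

theorem Fin_NT {n : ℕ} (hn : 2 ≤ n) (r : ℝ) (h M : ℕ) (A : Finset (Fin m)) (k : Fin m → ℕ) :
    NT8 r n M A k = NT4 r n h M false 0 A k := by
  funext v
  unfold NT8 NT4 pre dd
  simp only [Bool.false_eq_true, if_false, pow_zero, mul_one]
  rw [Fin_Bn hn]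
  congr 1
  exact Finset.prod_congr rfl fun j _ => Fin_qcn hn M (k j) v

theorem Fin_DG {n : ℕ} (hn : 2 ≤ n) (r : ℝ) (h M : ℕ) (A : Finset (Fin m)) (k : Fin m → ℕ) :
    DG8 r n M A k = DG4 r n h M false 0 A k := by
  unfold DG8 DG4
  rw [Fin_NT hn r h M A k]
  rfl

theorem Fin_w4 {n g : ℕ} (hn : 2 ≤ n) (hg : 1 ≤ g) (hgn : g < n) {M k : ℕ} (hk : k + n ≤ M + 1) :
    Cc n g M (yk n M k) = (w4 n (min g (n - g)) false M k : ℂ) := by
  rw [Cc_yk n g M _ hg (by omega) hk hn]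
  unfold w4
  simp only [Bool.false_eq_true, if_false]
  rcases le_total g (n - g) with h | h
  · rw [min_eq_left h]
    have a1 : k + (g - 1) = k + g - 1 := by omega
    have a2 : k + (n - g - 1) = k + (n - g) - 1 := by omega
    have a3 : k + (n - 2) = k + n - 2 := by omega
    rw [a1, a2, a3]
    push_cast
    ring
  · rw [min_eq_right h]
    have a1 : k + (g - 1) = k + (n - (n - g)) - 1 := by omega
    have a2 : k + (n - g - 1) = k + (n - g) - 1 := by omega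
    have a3 : k + (n - 2) = k + n - 2 := by omega
    rw [a1, a2, a3]
    push_cast
    ring

/-- The two forms of the state sum. -/
theorem JG8_eq {n g : ℕ} (hn : 2 ≤ n) (hg : 1 ≤ g) (hgn : g < n) (r : Fin (m + 1) → ℝ) (M : ℕ) :
    JG8 (Tr.par (m := m)) Fin.succ r n g M = JG4 r n (min g (n - g)) M := by
  unfold JG8 JG4
  refine Finset.sum_congr rfl fun k hk => ?_
  rw [Fintype.mem_piFinset] at hk
  congr 1
  · refine Finset.prod_congr rfl fun j _ => ?_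
    have := Finset.mem_range.1 (hk j)
    exact Fin_w4 hn hg hgn (by omega)
  · refine Finset.prod_congr rfl fun i _ => ?_
    exact Fin_DG hn (r i) _ M _ k

/-! ### The constants -/

private theorem Fin_inv (c : ℂ) (g : ℕ) :
    Tendsto (fun N : ℕ => exp (c / ((N : ℂ) + g))) atTop (𝓝 1) := by
  have t1 : Tendsto (fun M : ℕ => c / (M : ℂ)) atTop (𝓝 0) := by
    have := (tendsto_inv_atTop_nhds_zero_nat (𝕜 := ℂ)).const_mul c
    rw [mul_zero] at this
    refine this.congr fun M => ?_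
    rw [div_eq_mul_inv]
  have t2 := (continuous_exp.tendsto (0 : ℂ)).comp (t1.comp (tendsto_add_atTop_nat g))
  rw [exp_zero] at t2
  refine t2.congr fun N => ?_
  simp only [Function.comp_apply]
  push_cast
  rfl

private theorem Fin_Dg (n g : ℕ) (hn : 2 ≤ n) (hg : 1 ≤ g) (hgn : g < n) :
    ∃ c : ℝ, c ≠ 0 ∧ Tendsto (fun M : ℕ => Dg n g M * (M : ℝ) ^ (2 * n - 4)) atTop (𝓝 c) := by
  refine ⟨((2 * Real.pi) ^ (g - 1) * (Nat.factorial (g - 1) : ℝ)) *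
        ((2 * Real.pi) ^ (n - g - 1) * (Nat.factorial (n - g - 1) : ℝ)) *
        ((2 * Real.pi) ^ (n - 2) * (Nat.factorial (n - 2) : ℝ)), ?_, ?_⟩
  · positivity
  · refine (((S_lim (g - 1)).mul (S_lim (n - g - 1))).mul (S_lim (n - 2))).congr fun M => ?_
    unfold Dg
    have e : 2 * n - 4 = (g - 1) + (n - g - 1) + (n - 2) := by omega
    rw [e, pow_add, pow_add]
    ring

/-- The product of the constants of the nodes. -/
private theorem Fin_cst (r : Fin (m + 1) → ℤ) (n g N : ℕ) (hg : 1 ≤ g) :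
    ∏ i, (-(-1) ^ (n + g) * cG8 (r i) n (N + g) / (4 * Real.pi * (Dg n g (N + g) : ℂ))) =
      (-(-1 : ℂ) ^ (n + g) / (4 * Real.pi)) ^ (m + 1) / (Dg n g (N + g) : ℂ) ^ (m + 1) *
      (exp ((∑ i, (r i : ℂ)) * (2 * (Real.pi * I * bt n))) *
      exp (-(((N : ℂ) + g) * (Real.pi * I / 2 * ∑ i, (r i : ℂ)))) *
      exp ((-((∑ i, (r i : ℂ)) * (2 * (Real.pi * I * (bt n : ℂ) ^ 2)))) / ((N : ℂ) + g))) := by
  have hM : ((N : ℂ) + g) ≠ 0 := by exact_mod_cast (by omega : N + g ≠ 0)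
  have e1 : ∀ i, (-(-1) ^ (n + g) * cG8 (r i) n (N + g) / (4 * Real.pi * (Dg n g (N + g) : ℂ))) =
      (-(-1 : ℂ) ^ (n + g) / (4 * Real.pi)) * ((Dg n g (N + g) : ℂ))⁻¹ *
      exp ((r i : ℂ) * (2 * (Real.pi * I * bt n) - ((N : ℂ) + g) * (Real.pi * I / 2) -
        2 * (Real.pi * I * (bt n : ℂ) ^ 2) / ((N : ℂ) + g))) := by
    intro i
    unfold cG8
    have e2 : (2 * (r i : ℂ) * (Real.pi * I * bt n - Real.pi * I * ((N + g : ℕ) : ℂ) / 4 -
        Real.pi * I * (bt n : ℂ) ^ 2 / ((N + g : ℕ) : ℂ))) =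
        ((r i : ℂ) * (2 * (Real.pi * I * bt n) - ((N : ℂ) + g) * (Real.pi * I / 2) -
        2 * (Real.pi * I * (bt n : ℂ) ^ 2) / ((N : ℂ) + g))) := by
      push_cast
      field_simp
      ring
    rw [e2]
    simp only [div_eq_mul_inv, mul_inv]
    ring
  rw [Finset.prod_congr rfl fun i _ => e1 i, Finset.prod_mul_distrib, Finset.prod_const,
    Finset.card_univ, Fintype.card_fin, ← exp_sum, ← exp_add, ← exp_add, mul_pow,
    inv_pow, ← div_eq_mul_inv, ← Finset.sum_mul]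
  congr 2
  field_simp
  ring

/-- The asymptotics of the colored invariants of a tree. -/
theorem fin_su (r : Fin (m + 1) → ℤ) {n g : ℕ} (hn : 2 ≤ n)
    (hg : 1 ≤ g) (hgn : g < n) (W : ℂ) (Op : Finset (Fin (m + 1))) {κ0 : ℂ} (hκ0 : κ0 ≠ 0)
    (hlim : Tendsto (fun M : ℕ => (∏ _i ∈ Op, (-1 : ℂ) ^ (M + n + 1)) *
      JG4 (fun i => (r i : ℝ)) n (min g (n - g)) M /
        ((((M : ℝ) ^ (3 / 2 * ((m : ℝ) + 1) + m / 2) : ℝ) : ℂ) * exp (M * W))) atTop (𝓝 κ0)) :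
    ∃ J : ℕ → ℂ,
      (∀ N : ℕ, n ≤ N → Tendsto (fun q => coloredSU (diagram (Tr.par (m := m)) r) n N q)
        (𝓝[≠] exp (Real.pi * I / (N + g))) (𝓝 (J N))) ∧
      (∃ L : ℕ → ℂ, (∀ᶠ N : ℕ in atTop, exp (L N) = J N) ∧
        Tendsto (fun N : ℕ => 2 * (Real.pi : ℂ) * L N / (N + 1)) atTop
          (𝓝 (((2 * Real.pi * W.re : ℝ) : ℂ) + (C4 (fun i => 2 * r i) W Op : ℝ) * I))) ∧
      Tendsto (fun N : ℕ => 2 * (Real.pi : ℂ) * log (J N) / (N + 1)) atTop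
        (𝓝 (((2 * Real.pi * W.re : ℝ) : ℂ))) ∧
      ∃ κ : ℂ, κ ≠ 0 ∧ Tendsto (fun N : ℕ => J N /
        ((((N : ℝ) + g) ^ (2 * (n : ℝ) - 5 / 2) : ℝ) *
          exp ((N + g) * (((2 * Real.pi * W.re : ℝ) : ℂ) + (C4 (fun i => 2 * r i) W Op : ℝ) * I) /
            (2 * Real.pi)))) atTop (𝓝 κ) := by
  have hpi : (Real.pi : ℂ) ≠ 0 := by exact_mod_cast Real.pi_ne_zero
  have h4 : (4 * Real.pi : ℂ) ≠ 0 := mul_ne_zero (by norm_num) hpi
  obtain ⟨A, hA⟩ : ∃ A : ℝ, A = ∑ i, (r i : ℝ) := ⟨_, rfl⟩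
  have hAC : ∑ i, (r i : ℂ) = (A : ℂ) := by rw [hA]; push_cast; rfl
  have hWe : W = (W.re : ℂ) + (W.im : ℂ) * I := (Complex.re_add_im _).symm
  obtain ⟨c, hc0, hDlim⟩ := Fin_Dg n g hn hg hgn
  have hC : C4 (fun i => 2 * r i) W Op = 2 * Real.pi * W.im - Real.pi ^ 2 * A +
      2 * Real.pi ^ 2 * (Op.card : ℝ) := by
    unfold C4
    have e : ∑ i, (((2 * r i : ℤ)) : ℝ) = 2 * A := by
      rw [hA, Finset.mul_sum]
      push_cast
      rfl
    rw [e]
    ring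
  generalize C4 (fun i => 2 * r i) W Op = C at hC ⊢
  set J : ℕ → ℂ := fun N => (∏ i, (-(-1) ^ (n + g) * cG8 (r i) n (N + g) /
      (4 * Real.pi * (Dg n g (N + g) : ℂ)))) *
        ((Dg n g (N + g) : ℂ) / ((N + g : ℕ) : ℂ) ^ 2) ^ m *
        JG8 (Tr.par (m := m)) Fin.succ (fun i => (r i : ℝ)) n g (N + g) with hJ
  obtain ⟨K, hK⟩ : ∃ K : ℂ, K = (-(-1 : ℂ) ^ (n + g) / (4 * Real.pi)) ^ (m + 1) := ⟨_, rfl⟩
  have hK0 : K ≠ 0 := by
    rw [hK]
    exact pow_ne_zero _ (div_ne_zero (neg_ne_zero.2 (pow_ne_zero _ (by norm_num))) h4)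
  obtain ⟨B1, hB1⟩ : ∃ B1 : ℂ, B1 = (A : ℂ) * (2 * (Real.pi * I * bt n)) := ⟨_, rfl⟩
  obtain ⟨B2, hB2⟩ : ∃ B2 : ℂ, B2 = -((A : ℂ) * (2 * (Real.pi * I * (bt n : ℂ) ^ 2))) :=
    ⟨_, rfl⟩
  obtain ⟨σ, hσ⟩ : ∃ σ : ℂ, σ = ∏ _i ∈ Op, (-1 : ℂ) ^ (n + 1) := ⟨_, rfl⟩
  have hσ2 : σ * σ = 1 := by
    rw [hσ, ← Finset.prod_mul_distrib]
    refine Finset.prod_eq_one fun i _ => ?_
    rw [← mul_pow]
    norm_num
  have hσ0 : σ ≠ 0 := fun h => by rw [h, mul_zero] at hσ2; exact zero_ne_one hσ2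
  -- the exponent
  have hexp : ∀ M : ℂ, exp (M * (((2 * Real.pi * W.re : ℝ) : ℂ) + C * I) / (2 * Real.pi)) =
      exp (M * W) * exp (-(M * (Real.pi * I / 2 * A))) * exp (M * (Real.pi * I * (Op.card : ℂ))) := by
    intro M
    rw [← exp_add, ← exp_add]
    congr 1
    conv_rhs => rw [hWe]
    rw [hC]
    push_cast
    field_simp
    ring
  -- the asymptotics
  have hasy : Tendsto (fun N : ℕ => J N / ((((N : ℝ) + g) ^ (2 * (n : ℝ) - 5 / 2) : ℝ) *
      exp ((N + g) * (((2 * Real.pi * W.re : ℝ) : ℂ) + C * I) / (2 * Real.pi)))) atTop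
      (𝓝 (K * exp B1 * σ * ((c : ℂ))⁻¹ * κ0)) := by
    have t2 := Fin_inv B2 g
    have t3 : Tendsto (fun N : ℕ => (((Dg n g (N + g) * ((N + g : ℕ) : ℝ) ^ (2 * n - 4) : ℝ)) : ℂ)⁻¹)
        atTop (𝓝 ((c : ℂ))⁻¹) := by
      have h1 := hDlim.comp (tendsto_add_atTop_nat g)
      have h2 := ((continuous_ofReal.tendsto c).comp h1).inv₀ (by exact_mod_cast hc0)
      exact h2
    have t6 := ((t2.mul t3).mul (hlim.comp (tendsto_add_atTop_nat g))).const_mul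
      (K * exp B1 * σ)
    rw [one_mul, ← mul_assoc] at t6
    refine t6.congr' ?_
    filter_upwards [eventually_ge_atTop n] with N hNn
    simp only [Function.comp_apply]
    have hN : ((N : ℂ) + g) ≠ 0 := by exact_mod_cast (by omega : N + g ≠ 0)
    have hNr : (0 : ℝ) < (N : ℝ) + g := by
      have : (1 : ℝ) ≤ g := by exact_mod_cast hg
      positivity
    have hDg : (Dg n g (N + g) : ℂ) ≠ 0 := by
      have h := (Reduce_Dg n g (N + g) hn hg (by omega) (by omega)).1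
      exact_mod_cast h.ne'
    -- the factors
    have e2 := Fin_cst r n g N hg
    rw [← hK, hAC, ← hB1, ← hB2] at e2
    have e3 : ∏ _i ∈ Op, (-1 : ℂ) ^ (N + g + n + 1) =
        exp (((N : ℂ) + g) * (Real.pi * I * (Op.card : ℂ))) * σ := by
      have : exp (((N : ℂ) + g) * (Real.pi * I * (Op.card : ℂ))) =
          ∏ _i ∈ Op, (-1 : ℂ) ^ (N + g) := by
        rw [Finset.prod_const, ← pow_mul, show ((N : ℂ) + g) * (Real.pi * I * (Op.card : ℂ)) =
          (((N + g) * Op.card : ℕ) : ℂ) * (Real.pi * I) by push_cast; ring, exp_nat_mul,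
          exp_pi_mul_I]
      rw [this, hσ, ← Finset.prod_mul_distrib]
      refine Finset.prod_congr rfl fun i _ => ?_
      rw [← pow_add]
      congr 1
    have e4 := JG8_eq (m := m) hn hg hgn (fun i => (r i : ℝ)) (N + g)
    have e5 := hexp ((N : ℂ) + g)
    have e6 : (((((N + g : ℕ) : ℝ)) ^ (3 / 2 * ((m : ℝ) + 1) + m / 2) : ℝ) : ℂ) =
        (((((N : ℝ) + g) ^ (3 / 2 : ℝ) : ℝ)) : ℂ) * ((N : ℂ) + g) ^ (2 * m) := by
      have : ((N + g : ℕ) : ℝ) ^ (3 / 2 * ((m : ℝ) + 1) + m / 2) =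
          ((N : ℝ) + g) ^ (3 / 2 : ℝ) * ((N : ℝ) + g) ^ (2 * m) := by
        rw [← Real.rpow_natCast ((N : ℝ) + g) (2 * m), ← Real.rpow_add hNr]
        push_cast
        congr 1
        ring
      rw [this]
      push_cast
      rfl
    have e6' : ((((N : ℝ) + g) ^ (2 * (n : ℝ) - 5 / 2) : ℝ) : ℂ) =
        (((((N : ℝ) + g) ^ (3 / 2 : ℝ) : ℝ)) : ℂ) * ((N : ℂ) + g) ^ (2 * n - 4) := by
      have : ((N : ℝ) + g) ^ (2 * (n : ℝ) - 5 / 2) =
          ((N : ℝ) + g) ^ (3 / 2 : ℝ) * ((N : ℝ) + g) ^ (2 * n - 4) := by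
        rw [← Real.rpow_natCast ((N : ℝ) + g) (2 * n - 4), ← Real.rpow_add hNr]
        rw [Nat.cast_sub (by omega)]
        push_cast
        congr 1
        ring
      rw [this]
      push_cast
      rfl
    have e7 : exp (((N : ℂ) + g) * (Real.pi * I * (Op.card : ℂ))) *
        exp (((N : ℂ) + g) * (Real.pi * I * (Op.card : ℂ))) = 1 := by
      rw [← exp_add, show ((N : ℂ) + g) * (Real.pi * I * (Op.card : ℂ)) +
        ((N : ℂ) + g) * (Real.pi * I * (Op.card : ℂ)) =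
        ((((N + g) * Op.card : ℕ)) : ℂ) * (2 * Real.pi * I) by push_cast; ring, exp_nat_mul,
        exp_two_pi_mul_I, one_pow]
    have e9 := exp_ne_zero (((N : ℂ) + g) * W)
    have e10 := exp_ne_zero (-(((N : ℂ) + g) * (Real.pi * I / 2 * A)))
    have e12 := exp_ne_zero (((N : ℂ) + g) * (Real.pi * I * (Op.card : ℂ)))
    have e13 : (((((N : ℝ) + g) ^ (3 / 2 : ℝ) : ℝ)) : ℂ) ≠ 0 := by
      exact_mod_cast (Real.rpow_pos_of_pos hNr _).ne'
    have e14 : ((N : ℂ) + g) ^ (2 * m) ≠ 0 := pow_ne_zero _ hN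
    have e15 : ((N : ℂ) + g) ^ (2 * n - 4) ≠ 0 := pow_ne_zero _ hN
    have e16 : ((Dg n g (N + g) : ℂ) / ((N + g : ℕ) : ℂ) ^ 2) ^ m =
        (Dg n g (N + g) : ℂ) ^ m / ((N : ℂ) + g) ^ (2 * m) := by
      rw [div_pow, ← pow_mul]
      push_cast
      rfl
    have e17 : (((Dg n g (N + g) * ((N + g : ℕ) : ℝ) ^ (2 * n - 4) : ℝ)) : ℂ) =
        (Dg n g (N + g) : ℂ) * ((N : ℂ) + g) ^ (2 * n - 4) := by
      push_cast
      rfl
    have e19 : (Dg n g (N + g) : ℂ) ^ (m + 1) = (Dg n g (N + g) : ℂ) ^ m * (Dg n g (N + g) : ℂ) :=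
      pow_succ _ _
    have e20 : (Dg n g (N + g) : ℂ) ^ m ≠ 0 := pow_ne_zero _ hDg
    have e18 : (((N + g : ℕ) : ℂ)) = (N : ℂ) + g := by push_cast; rfl
    rw [hJ]
    simp only
    rw [e2, e3, e4, e5, e6, e6', e16, e17, e18, e19]
    clear e2 e3 e4 e5 e6 e6' e16 e17 e18 e19
    revert e7 e9 e10 e12 e13 e14 e15 e20 hDg hσ2
    generalize exp (((N : ℂ) + g) * W) = x1
    generalize exp (-(((N : ℂ) + g) * (Real.pi * I / 2 * A))) = x2
    generalize exp (((N : ℂ) + g) * (Real.pi * I * (Op.card : ℂ))) = x4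
    generalize (((((N : ℝ) + g) ^ (3 / 2 : ℝ) : ℝ)) : ℂ) = x5
    generalize ((N : ℂ) + g) ^ (2 * m) = x6
    generalize ((N : ℂ) + g) ^ (2 * n - 4) = x7
    generalize (Dg n g (N + g) : ℂ) ^ m = x8
    generalize (Dg n g (N + g) : ℂ) = x9
    generalize exp (B2 / ((N : ℂ) + g)) = x11
    generalize JG4 (fun i => (r i : ℝ)) n (min g (n - g)) (N + g) = x12
    generalize exp B1 = x14
    intro hσ2 hDg e7 e9 e10 e12 e13 e14 e15 e20
    have k1 : K * x14 * σ * (x11 * (x9 * x7)⁻¹ * (x4 * σ * x12 / (x5 * x6 * x1))) =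
        (K / (x8 * x9) * (x14 * x2 * x11) * (x8 / x6) * x12) /
          (x5 * x7 * (x1 * x2 * x4)) := by
      field_simp
      linear_combination (x14 * x11 * x12 * x4 ^ 2) * hσ2 +
        (x14 * x11 * x12) * e7
    exact k1
  have hκ' : K * exp B1 * σ * ((c : ℂ))⁻¹ * κ0 ≠ 0 := by
    refine mul_ne_zero (mul_ne_zero (mul_ne_zero (mul_ne_zero hK0
      (exp_ne_zero _)) hσ0) (inv_ne_zero (by exact_mod_cast hc0))) hκ0
  refine ⟨J, ?_, ?_, ?_, _, hκ', hasy⟩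
  · intro N hN
    have h1 := root_lim8 m (Tr.par (m := m)) Tr.le r n g N hn hg hgn hN
    have hcast : ((N + g : ℕ) : ℂ) = (N : ℂ) + g := by push_cast; rfl
    rw [← hcast]
    refine h1.congr' ?_
    filter_upwards [Fin11_gen_ev _ n N] with q hq
    rw [coloredSU_diagram q n N hq hn (Tr.par (m := m)) Tr.le r]
  · exact Pool.Agent.H63.VC6.log_lift J g hg (2 * (n : ℝ) - 5 / 2) _ _ hκ' hasy
  · have hn' := hasy.norm
    have hnorm : Tendsto (fun N : ℕ => ‖J N‖ / (((N + g : ℕ) : ℝ) ^ (2 * (n : ℝ) - 5 / 2) *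
        Real.exp ((N + g : ℕ) * W.re))) atTop
        (𝓝 ‖K * exp B1 * σ * ((c : ℂ))⁻¹ * κ0‖) := by
      refine hn'.congr fun N => ?_
      rw [norm_div]
      congr 1
      rw [norm_mul, Complex.norm_exp, Complex.norm_real, Real.norm_eq_abs,
        abs_of_nonneg (by positivity)]
      congr 1
      · push_cast; rfl
      · congr 1
        have e7 : ((N : ℂ) + g) * (((2 * Real.pi * W.re : ℝ) : ℂ) + (C : ℂ) * I) /
            (2 * Real.pi) = (((N : ℝ) + g) * W.re : ℝ) +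
              (((N : ℝ) + g) * (C / (2 * Real.pi)) : ℝ) * I := by
          push_cast
          field_simp
        rw [e7, Complex.add_re, Complex.ofReal_re, Complex.re_ofReal_mul, Complex.I_re]
        push_cast
        ring
    exact Pool.Agent.H63.VC3.final_log J g hg (2 * (n : ℝ) - 5 / 2) W.re _ (norm_pos_iff.2 hκ') hnorm

end Pool.Agent.AT.SU
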