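import Pool.Agent.AT.SU.Lim
import Pool.Agent.AT.SU.Fin
import Pool.Agent.AT.Final

/-!
# The complexified volume conjecture for the colored `SU(n)` invariants of alternating trees
-/

set_option autoImplicit false

namespace Pool.Agent.AT.SU

open Pool.Agent.S4 Pool.Agent.S3 Pool.Agent.S3.E Pool.Agent.H63.VC7 Pool.Agent.H63.VC11
open Complex Filter Topology
open scoped BigOperators

/-- The asymptotics of the colored `SU(n)` invariants of a tree, from a critical point. -/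
theorem su_tree {m : ℕ} [Tr m] (hm : 1 ≤ m) {a : Fin (m + 1) → ℕ} {σ : Fin (m + 1) → ℤ}
    {z : Fin (m + 1) → ℂ} (hz : TZ a z) (hv : TV a z) (hσ : ∀ i, σ i = 1 ∨ σ i = -1)
    (hs : ∀ j : Fin m, σ j.succ = -σ (Tr.par j)) (r : Fin (m + 1) → ℤ)
    (hr : ∀ i, σ i * (a i : ℤ) = 2 * r i) {n g : ℕ} (hn : 2 ≤ n) (hg : 1 ≤ g) (hgn : g < n) :
    ∃ J : ℕ → ℂ,
      (∀ N : ℕ, n ≤ N → Tendsto (fun q => coloredSU (diagram (Tr.par (m := m)) r) n N q)
        (𝓝[≠] exp (Real.pi * I / (N + g))) (𝓝 (J N))) ∧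
      (∃ L : ℕ → ℂ, (∀ᶠ N : ℕ in atTop, exp (L N) = J N) ∧
        Tendsto (fun N : ℕ => 2 * (Real.pi : ℂ) * L N / (N + 1)) atTop
          (𝓝 (((2 * Real.pi * (Wv a σ z).re : ℝ) : ℂ) +
            (C4 (fun i => 2 * r i) (Wv a σ z) Finset.univ : ℝ) * I))) ∧
      Tendsto (fun N : ℕ => 2 * (Real.pi : ℂ) * log (J N) / (N + 1)) atTop
        (𝓝 (((2 * Real.pi * (Wv a σ z).re : ℝ) : ℂ))) ∧
      ∃ κ : ℂ, κ ≠ 0 ∧ Tendsto (fun N : ℕ => J N /
        ((((N : ℝ) + g) ^ (2 * (n : ℝ) - 5 / 2) : ℝ) *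
          exp ((N + g) * (((2 * Real.pi * (Wv a σ z).re : ℝ) : ℂ) +
            (C4 (fun i => 2 * r i) (Wv a σ z) Finset.univ : ℝ) * I) /
            (2 * Real.pi)))) atTop (𝓝 κ) := by
  have hrc : (cfgOf a σ z).r = fun i => (r i : ℝ) := by
    funext i
    show (σ i : ℝ) * a i / 2 = (r i : ℝ)
    have := hr i
    have h : ((σ i : ℝ) * (a i : ℝ)) = 2 * (r i : ℝ) := by exact_mod_cast this
    rw [h]
    ring
  have hop : (cfgOf a σ z).Op = Finset.univ := Finset.eq_univ_of_forall fun i => mem_Op i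
  obtain ⟨c, hc, hlim⟩ := JG4_lim (h := min g (n - g)) hm hn (by omega) (by omega) hz hv hσ hs
  rw [hrc, hop] at hlim
  exact fin_su r hn hg hgn (Wv a σ z) Finset.univ hc hlim

/-- **The complexified volume conjecture for the colored `SU(n)` invariants of alternating
plumbings of annuli.** -/
theorem final_su {m : ℕ} (hm : 1 ≤ m) (par : Fin m → Fin (m + 1))
    (hpar : ∀ j, par j ≤ j.castSucc) (r : Fin (m + 1) → ℤ) (h2 : ∀ i, 2 ≤ |r i|)
    (hs : ∀ j : Fin m, r (par j) * r j.succ < 0)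
    (hd : ∀ i, ((Finset.univ.filter fun j : Fin m => par j = i ∨ j.succ = i).card : ℤ) ≤
      2 * |r i|) :
    ∃ V C : ℝ, Hyp.IsVolume par Fin.succ (fun i => 2 * r i) V ∧
      (∃ Z : ℂ, Hyp.IsComplexVolume par Fin.succ (fun i => 2 * r i) Z ∧
        ∃ k : ℤ, Z = I * (V + C * I) + k * (Real.pi : ℂ) ^ 2) ∧
      ∀ n a : ℕ, 2 ≤ n → 1 ≤ a → a ≤ n - 1 → ∃ J : ℕ → ℂ,
        (∀ N : ℕ, n ≤ N → Tendsto (fun q => coloredSU (diagram par r) n N q)
          (𝓝[≠] exp (Real.pi * I / (N + a))) (𝓝 (J N))) ∧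
        (∃ L : ℕ → ℂ, (∀ᶠ N : ℕ in atTop, exp (L N) = J N) ∧
          Tendsto (fun N : ℕ => 2 * (Real.pi : ℂ) * L N / (N + 1)) atTop
            (𝓝 (V + C * I))) ∧
        Tendsto (fun N : ℕ => 2 * (Real.pi : ℂ) * log (J N) / (N + 1)) atTop
          (𝓝 (V : ℂ)) ∧
        ∃ κ : ℂ, κ ≠ 0 ∧ Tendsto (fun N : ℕ => J N /
          ((((N : ℝ) + a) ^ (2 * (n : ℝ) - 5 / 2) : ℝ) *
            exp ((N + a) * (V + C * I) / (2 * Real.pi)))) atTop (𝓝 κ) := by
  let _ : Tr m := ⟨par, hpar⟩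
  have hne : ∀ i, r i ≠ 0 := by
    intro i h0
    have := h2 i
    rw [h0] at this
    simp at this
  have hσ : ∀ i, (r i).sign = 1 ∨ (r i).sign = -1 := by
    intro i
    rcases lt_or_gt_of_ne (hne i) with h | h
    · exact Or.inr (Int.sign_eq_neg_one_of_neg h)
    · exact Or.inl (Int.sign_eq_one_of_pos h)
  have hab : ∀ i, (r i).sign * ((2 * (r i).natAbs : ℕ) : ℤ) = 2 * r i := by
    intro i
    have := Int.sign_mul_natAbs (r i)
    push_cast
    push_cast at this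
    linear_combination 2 * this
  have hs' : ∀ j : Fin m, (r j.succ).sign = -(r (Tr.par j)).sign := by
    intro j
    show (r j.succ).sign = -(r (par j)).sign
    have h1 := hs j
    rcases lt_or_gt_of_ne (hne (par j)) with h | h
    · have h2 : 0 < r j.succ := by
        by_contra hn
        push Not at hn
        have := mul_nonneg_of_nonpos_of_nonpos h.le hn
        linarith
      rw [Int.sign_eq_neg_one_of_neg h, Int.sign_eq_one_of_pos h2]
      rfl
    · have h2 : r j.succ < 0 := by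
        by_contra hn
        push Not at hn
        have := mul_nonneg h.le hn
        linarith
      rw [Int.sign_eq_neg_one_of_neg h2, Int.sign_eq_one_of_pos h]
  obtain ⟨z, hz, hv, hg, hp⟩ := exists_tz hm (fun i => 2 * (r i).natAbs)
    (fun i => by
      have h1 := h2 i
      rw [Int.abs_eq_natAbs] at h1
      show 3 ≤ 2 * (r i).natAbs
      omega)
    (fun i => by
      have h1 := hd i
      have h2 : (inc (Tr.par (m := m)) Fin.succ i).card =
          (Finset.univ.filter fun j : Fin m => par j = i ∨ j.succ = i).card := rfl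
      rw [Int.abs_eq_natAbs, ← h2] at h1
      exact_mod_cast h1)
  have hcs := critS_of hm hz hv hσ hs' hg hp
  have hfun : (fun i => (r i).sign * ((2 * (r i).natAbs : ℕ) : ℤ)) = fun i => 2 * r i :=
    funext hab
  have hW : Wv (fun i => 2 * (r i).natAbs) (fun i => (r i).sign) z =
      G.WT (Tr.par (m := m)) Fin.succ (fun i => 2 * r i)
        (cfgOf (fun i => 2 * (r i).natAbs) (fun i => (r i).sign) z).yc
        (cfgOf (fun i => 2 * (r i).natAbs) (fun i => (r i).sign) z).vc := by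
    rw [← hfun]
    exact Wv_eq
  rw [hfun] at hcs
  obtain ⟨Z, hZ, k2, hk⟩ := CV.isComplexVolume_of_crit hcs
  obtain ⟨k1, hk1⟩ := C4_spec (fun i => 2 * r i)
    (Wv (fun i => 2 * (r i).natAbs) (fun i => (r i).sign) z) Finset.univ
  refine ⟨2 * Real.pi * (Wv (fun i => 2 * (r i).natAbs) (fun i => (r i).sign) z).re,
    C4 (fun i => 2 * r i) (Wv (fun i => 2 * (r i).natAbs) (fun i => (r i).sign) z) Finset.univ,
    ?_, ⟨Z, hZ, k2 - k1, ?_⟩, ?_⟩
  · rw [hW]
    exact hcs.isVolume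
  · rw [hk, hk1, hW]
    push_cast
    ring
  · intro n g hn hg1 hgn
    exact su_tree hm hz hv hσ hs' r hab hn hg1 (by omega)

end Pool.Agent.AT.SU
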