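import Pool.Agent.AT.SU.Defs
import Pool.Agent.AT.Amp
import Pool.Agent.S4.G.Slot

/-!
# Continuity of the slots of a tree
-/

set_option autoImplicit false

namespace Pool.Agent.AT.SU

open Pool.Agent.S4
open Pool.Agent.H63.VC hiding ext
open Pool.Agent.H63.VC3 Pool.Agent.H63.VC7 Pool.Agent.H25.RK Pool.Agent.S3 Pool.Agent.H63.GO
open Complex Filter Topology MeasureTheory
open scoped BigOperators Interval

variable {n h : ℕ}

private theorem cos_ne {v : ℂ} (hv : v.im ≠ 0) : cos (Real.pi * v) ≠ 0 := by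
  intro h0
  obtain ⟨k, hk⟩ := Complex.cos_eq_zero_iff.mp h0
  have h1 := congrArg Complex.im hk
  have e1 : ((Real.pi : ℂ) * v).im = Real.pi * v.im := im_ofReal_mul _ _
  have e2 : ((2 * (k : ℂ) + 1) * Real.pi / 2).im = 0 := by
    have : ((2 * (k : ℂ) + 1) * Real.pi / 2) = (((2 * (k : ℝ) + 1) * Real.pi / 2 : ℝ) : ℂ) := by
      push_cast
      ring
    rw [this, ofReal_im]
  rw [e1, e2] at h1
  exact (mul_ne_zero Real.pi_ne_zero hv) h1

private theorem Wd_ne (M d : ℕ) {v : ℂ} (hv : v.im ≠ 0) : Wd M d v ≠ 0 := by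
  unfold Wd
  refine Finset.prod_ne_zero_iff.mpr fun j _ => mul_ne_zero (by norm_num) (cos_ne ?_)
  have e : ((j : ℂ) + 1 / 2 - d / 2) / M = ((((j : ℝ) + 1 / 2 - d / 2) / M : ℝ) : ℂ) := by
    push_cast
    ring
  rw [e, add_im, ofReal_im, add_zero]
  exact hv

private theorem Wd_cont (M d : ℕ) : Continuous (Wd M d) := by
  unfold Wd
  fun_prop

variable {m : ℕ} [Tr m] {C : Cfg m}

/-! ### Continuity -/

private theorem LLc {M : ℕ} (hM : 0 < M) {c : ℝ} (h0 : 0 ≤ c) (h1 : 2 * c ≤ M) {y : ℂ}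
    (hy0 : 0 < y.re) (hy1 : y.re < 1 / 2) :
    ContinuousAt (fun y : ℂ => LL M (M * (y + 1 / 2) - 1 - (c : ℂ))) y := by
  have hM0 : (0 : ℝ) < M := by exact_mod_cast hM
  have e1 : ((M : ℂ) * (y + 1 / 2) - 1 - (c : ℂ)).re = M * (y.re + 1 / 2) - 1 - c := by
    rw [sub_re, sub_re, ← ofReal_natCast, re_ofReal_mul, add_re, ofReal_re]
    norm_num
  have d := (LL_differentiableAt M hM (M * (y + 1 / 2) - 1 - (c : ℂ)) (by rw [e1]; nlinarith)
    (by rw [e1]; nlinarith)).continuousAt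
  exact ContinuousAt.comp (f := fun y : ℂ => (M : ℂ) * (y + 1 / 2) - 1 - (c : ℂ)) (g := LL M) d
    (by fun_prop)

private theorem w4C_continuousAt (hn : 2 ≤ n) (hh : 1 ≤ h) (hh' : 2 * h ≤ n) (e : Bool) {M : ℕ}
    (hM : 4 * n ≤ M) {y : ℂ} (hy0 : 0 < y.re) (hy1 : y.re < 1 / 2) :
    ContinuousAt (w4C n h e M) y := by
  have hn' : (2 : ℝ) ≤ n := by exact_mod_cast hn
  have h1 : (1 : ℝ) ≤ h := by exact_mod_cast hh
  have h2 : 2 * (h : ℝ) ≤ n := by exact_mod_cast hh'
  have hM' : 4 * (n : ℝ) ≤ M := by exact_mod_cast hM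
  have hM0 : 0 < M := by omega
  have a1 := LLc hM0 (c := 0) le_rfl (by linarith) hy0 hy1
  have a2 := LLc hM0 (c := (n : ℝ) - 2) (by linarith) (by linarith) hy0 hy1
  have a3 := LLc hM0 (c := (n : ℝ) - 1 - h) (by linarith) (by linarith) hy0 hy1
  have a4 := LLc hM0 (c := if e then (n : ℝ) - 1 - h else (h : ℝ) - 1)
    (by split_ifs <;> linarith) (by split_ifs <;> linarith) hy0 hy1
  have g := (((a1.add a2).add a3).add a4).cexp
  refine g.congr (Eventually.of_forall fun w => ?_)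
  simp only [Pi.add_apply]
  unfold w4C
  cases e <;> simp

private theorem sC4_continuousAt (hn : 2 ≤ n) (hh : 1 ≤ h) (P : Bool) {M : ℕ} (hM : 4 * n ≤ M)
    {z : C.Op ⊕ Fin m → ℂ} (hz : z ∈ C.U) (j : Fin m) (i : Fin (m + 1))
    (h' : sdom (C.Yz z j) (C.slz z i)) :
    ContinuousAt (fun z => sC4 n h M P (C.Yz z j) (C.slz z i) / Ws n h M P (C.slz z i)) z := by
  have hM0' : 0 < M := by omega
  have hM0 : (0 : ℝ) < M := by exact_mod_cast hM0'
  have hM2 : (0 : ℝ) < 1 / (2 * M) := by positivity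
  have hY : ContinuousAt (fun z => C.Yz z j) z := (Cfg.Hess_Yz_an C j z).continuousAt
  obtain ⟨h1, h2⟩ := Cfg.sdom_re h'
  by_cases hi : i ∈ C.Op
  · have hsl : ∀ w, C.slz w i = .op (gdv (C.uz w i)) := fun w => by
      unfold Cfg.slz
      rw [if_pos hi]
    simp only [hsl]
    have hg : ContinuousAt (fun z => gdv (C.uz z i)) z := (Cfg.Hess_gz_an hz hi).continuousAt
    have hv : |(gdv (C.uz z i)).re| < 1 / 2 := gdv_re_lt (Cfg.Hess_im hz hi)
    have hd : (dd n h P : ℝ) ≤ M := by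
      have : dd n h P ≤ M := by
        unfold dd
        split_ifs <;> omega
      exact_mod_cast this
    have hd0 : (0 : ℝ) ≤ (dd n h P : ℝ) / (2 * M) := by positivity
    have hd1 : (dd n h P : ℝ) / (2 * M) ≤ 1 / 2 := by
      rw [div_le_div_iff₀ (by positivity) (by norm_num)]
      linarith
    have er : (C.Yz z j - (dd n h P : ℂ) / (2 * M)).re =
        (C.Yz z j).re - (dd n h P : ℝ) / (2 * M) := by
      have : (dd n h P : ℂ) / (2 * M) = (((dd n h P : ℝ) / (2 * M) : ℝ) : ℂ) := by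
        push_cast
        ring
      rw [this, sub_re, ofReal_re]
    have hy : |(C.Yz z j - (dd n h P : ℂ) / (2 * M)).re| < 1 / 2 := by
      rw [er, abs_lt]
      constructor <;> linarith
    have d := (qS_differentiableAt hM0' (y := C.Yz z j - (dd n h P : ℂ) / (2 * M))
      (v := gdv (C.uz z i)) (by linarith)).continuousAt
    have c1 : ContinuousAt (fun z => qS M (C.Yz z j - (dd n h P : ℂ) / (2 * M))
        (gdv (C.uz z i))) z :=
      ContinuousAt.comp (f := fun z => (C.Yz z j - (dd n h P : ℂ) / (2 * M), gdv (C.uz z i)))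
        (g := fun p : ℂ × ℂ => qS M p.1 p.2) d ((hY.sub continuousAt_const).prodMk hg)
    have c2 : ContinuousAt (fun z => Wd M (dd n h P) (gdv (C.uz z i))) z :=
      ContinuousAt.comp (f := fun z => gdv (C.uz z i)) (g := Wd M (dd n h P))
        (Wd_cont M _).continuousAt hg
    have him : 0 < (gdv (C.uz z i)).im := by
      have h5 := hz.1 ⟨i, hi⟩
      have e : C.uz z i = z (Sum.inl ⟨i, hi⟩) := by
        unfold Cfg.uz
        rw [dif_pos hi]
      rw [e]
      exact gdv_im_pos h5.1 h5.2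
    exact c1.div c2 (Wd_ne M _ him.ne')
  · have hsl : ∀ w, C.slz w i = .cl (C.s i) := fun w => by
      unfold Cfg.slz
      rw [if_neg hi]
    simp only [hsl]
    have hn' : (2 : ℝ) ≤ n := by exact_mod_cast hn
    have hM' : 4 * (n : ℝ) ≤ M := by exact_mod_cast hM
    have a2 := LLc hM0' (c := (n : ℝ) - 2) (by linarith) (by linarith) h1 h2
    have a3 : ContinuousAt (fun y : ℂ => 4 * Real.pi * M *
        exp (Real.pi * I * (C.s i) * ph4 n h M P (M * (1 / 2 - y))) *
        exp (-LL M (M * (y + 1 / 2) - 1 - (((n : ℝ) - 2 : ℝ) : ℂ)))) (C.Yz z j) := by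
      refine ContinuousAt.mul ?_ a2.neg.cexp
      unfold ph4
      cases P <;> simp only [if_true, if_false, Bool.false_eq_true] <;> fun_prop
    have c1 := ContinuousAt.comp (f := fun z => C.Yz z j) (g := fun y : ℂ => 4 * Real.pi * M *
        exp (Real.pi * I * (C.s i) * ph4 n h M P (M * (1 / 2 - y))) *
        exp (-LL M (M * (y + 1 / 2) - 1 - (((n : ℝ) - 2 : ℝ) : ℂ)))) a3 hY
    refine c1.congr (Eventually.of_forall fun w => ?_)
    simp only [Function.comp_apply]
    unfold sC4 Ws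
    simp

/-- The continuity in the variables of a chain. -/
theorem Fq_cont (hn : 2 ≤ n) (hh : 1 ≤ h) (hh' : 2 * h ≤ n) (e P Q : Bool)
    (hs : ∀ i ∉ C.Op, C.s i = 1 ∨ C.s i = -1) (j : Fin m) : ∀ᶠ M : ℕ in atTop,
    ContinuousOn (fun z => Fq n h e P Q M (C.slz z (Tr.par j)) (C.slz z j.succ) (C.Yz z j))
      C.U := by
  filter_upwards [eventually_ge_atTop (4 * n)] with M hM
  intro z hz
  apply ContinuousAt.continuousWithinAt
  have hY : ContinuousAt (fun z => C.Yz z j) z := (Cfg.Hess_Yz_an C j z).continuousAt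
  obtain ⟨h1, h2⟩ := Cfg.sdom_re (hz.2 j).1
  have a := ContinuousAt.comp (f := fun z => C.Yz z j) (g := w4C n h e M)
    (w4C_continuousAt hn hh hh' e hM h1 h2) hY
  have b := sC4_continuousAt (h := h) hn hh P hM hz j _ (hz.2 j).1
  have c := sC4_continuousAt (h := h) hn hh Q hM hz j _ (hz.2 j).2
  refine (a.mul (b.mul c)).congr (Eventually.of_forall fun w => ?_)
  simp only [Function.comp_apply, Pi.mul_apply]
  unfold Fq F4
  simp only [div_eq_mul_inv, mul_inv]
  ring

end Pool.Agent.AT.SU
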