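import Pool.Agent.AT.Low4
import Pool.Agent.H63.VC.Cross
import Pool.Agent.H63.VC11.Brac11
import Pool.Agent.H63.VC12.Path12
import Pool.Agent.H63.VC4.Checks
import Pool.Agent.S4.G.LowC
import Pool.Agent.S4.G.Unif

/-!
# Trees, `SU(n)`, small indices: general lemmas

`int_gen4`: the sum over the multi-indices as an integral, if the factors of the open vertices are
integrals. `low_bound4`: the kernels with large indices of the edges at the lattice vertices.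
-/

set_option autoImplicit false
set_option linter.unusedSectionVars false

namespace Pool.Agent.AT.SU

open Pool.Agent.H63.VC hiding ext
open Pool.Agent.H63.VC3 Pool.Agent.H63.VC7 Pool.Agent.H25.RK Pool.Agent.S3 Pool.Agent.H63.GO
open Pool.Agent.AT Pool.Agent.S4
open Complex Filter Topology MeasureTheory
open scoped BigOperators Interval

variable {m : ℕ} [Tr m]

/-! ### The general formula -/

/-- The sum over the multi-indices as an integral, if the factors of the open vertices are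
integrals. -/
theorem int_gen4 (Op : Finset (Fin (m + 1))) (g : Fin (m + 1) → ℝ → ℂ)
    (s : Fin (m + 1) → Fin m → ℕ → ℝ → ℂ) (s0 : Fin (m + 1) → Fin m → ℕ → ℂ)
    (c : Fin m → ℕ → ℂ) (D : Fin (m + 1) → (Fin m → ℕ) → ℂ) (S : Fin m → Finset ℕ)
    (hI : ∀ i ∈ Op, ∀ k ∈ Fintype.piFinset S, Integrable (fun x => g i x *
      ∏ j ∈ inc (Tr.par (m := m)) Fin.succ i, s i j (k j) x))
    (hO : ∀ i ∈ Op, ∀ k ∈ Fintype.piFinset S, D i k =
      ∫ x, g i x * ∏ j ∈ inc (Tr.par (m := m)) Fin.succ i, s i j (k j) x)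
    (hC : ∀ i ∉ Op, ∀ k ∈ Fintype.piFinset S, D i k =
      ∏ j ∈ inc (Tr.par (m := m)) Fin.succ i, s0 i j (k j)) :
    ∑ k ∈ Fintype.piFinset S, (∏ j, c j (k j)) * ∏ i, D i k =
      ∫ x : Op → ℝ, (∏ i : Op, g i (x i)) *
        ∏ j : Fin m, ∑ κ ∈ S j, c j κ *
          (sgx Op s s0 x (Tr.par j) j κ * sgx Op s s0 x j.succ j κ) := by
  -- the term of a multi-index
  obtain ⟨G, hG⟩ : ∃ G : (Fin m → ℕ) → (Op → ℝ) → ℂ, G = fun k x => (∏ i : Op, g i (x i)) *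
    ∏ i, ∏ j ∈ inc (Tr.par (m := m)) Fin.succ i, sgx Op s s0 x i j (k j) := ⟨_, rfl⟩
  have hGe : ∀ k ∈ Fintype.piFinset S, ∀ x : Op → ℝ, G k x =
      (∏ i : Op, (g i (x i) * ∏ j ∈ inc (Tr.par (m := m)) Fin.succ (i : Fin (m + 1)),
        s i j (k j) (x i))) * ∏ i ∈ Opᶜ, D i k := by
    intro k hk x
    rw [hG]
    simp only
    rw [Finset.prod_mul_distrib, mul_assoc]
    congr 1
    rw [← Finset.prod_mul_prod_compl Op]
    congr 1
    · rw [← Finset.prod_coe_sort]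
      refine Finset.prod_congr rfl fun i _ => ?_
      refine Finset.prod_congr rfl fun j _ => ?_
      unfold sgx
      rw [dif_pos i.2]
    · refine Finset.prod_congr rfl fun i hi => ?_
      have hi' : i ∉ Op := Finset.mem_compl.mp hi
      rw [hC i hi' k hk]
      refine Finset.prod_congr rfl fun j _ => ?_
      unfold sgx
      rw [dif_neg hi']
  have hGi : ∀ k ∈ Fintype.piFinset S, Integrable (G k) := by
    intro k hk
    have e : G k = fun x : Op → ℝ => (∏ i : Op, (g i (x i) *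
        ∏ j ∈ inc (Tr.par (m := m)) Fin.succ (i : Fin (m + 1)), s i j (k j) (x i))) *
        ∏ i ∈ Opᶜ, D i k :=
      funext fun x => hGe k hk x
    rw [e]
    apply Integrable.mul_const
    exact Integrable.fintype_prod (f := fun (i : Op) (x : ℝ) => g i x *
      ∏ j ∈ inc (Tr.par (m := m)) Fin.succ (i : Fin (m + 1)), s i j (k j) x)
      (fun i => hI i i.2 k hk)
  have hGt : ∀ k ∈ Fintype.piFinset S, ∏ i, D i k = ∫ x : Op → ℝ, G k x := by
    intro k hk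
    have e : G k = fun x : Op → ℝ => (∏ i : Op, (g i (x i) *
        ∏ j ∈ inc (Tr.par (m := m)) Fin.succ (i : Fin (m + 1)), s i j (k j) (x i))) *
        ∏ i ∈ Opᶜ, D i k :=
      funext fun x => hGe k hk x
    rw [e, integral_mul_const, integral_fintype_prod_volume_eq_prod (fun (i : Op) (x : ℝ) =>
      g i x * ∏ j ∈ inc (Tr.par (m := m)) Fin.succ (i : Fin (m + 1)), s i j (k j) x),
      ← Finset.prod_mul_prod_compl Op]
    congr 1
    rw [← Finset.prod_coe_sort]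
    exact Finset.prod_congr rfl fun i _ => hO i i.2 k hk
  have hpt : ∀ x : Op → ℝ, (∏ i : Op, g i (x i)) *
      ∏ j : Fin m, ∑ κ ∈ S j, c j κ *
        (sgx Op s s0 x (Tr.par j) j κ * sgx Op s s0 x j.succ j κ) =
      ∑ k ∈ Fintype.piFinset S, (∏ j, c j (k j)) * G k x := by
    intro x
    rw [Finset.prod_univ_sum, Finset.mul_sum]
    refine Finset.sum_congr rfl fun k _ => ?_
    rw [hG]
    simp only
    rw [prod_inc (Tr.par (m := m)) Fin.succ (fun j => Tr.ne j)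
      (fun i j => sgx Op s s0 x i j (k j)), Finset.prod_mul_distrib]
    ring
  simp only [hpt]
  rw [integral_finsetSum _ fun k hk => (hGi k hk).const_mul _]
  refine Finset.sum_congr rfl fun k hk => ?_
  rw [integral_const_mul, hGt k hk]

/-! ### The kernels with large indices -/

variable {C : Cfg m} {v1 : Fin (m + 1) → ℝ} {lam : Fin m → Fin (m + 1) → ℝ}
  {t : Fin (m + 1) → ℂ} {g0 : ℝ}
  {ρ : Fin (m + 1) → ℝ}

/-- The kernels with large indices of the edges at `T`. -/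
theorem low_bound4 {K : Fin m → ℕ → Sl → Sl → ℂ} (hK : ∀ j, KB (K j))
    (H : C.LowH v1 lam t g0 ρ) :
    ∃ η : ℝ, 0 < η ∧ ∃ D : ℝ, 0 < D ∧ ∃ p : ℕ, ∀ᶠ M : ℕ in atTop, ∀ J : Fin m × Bool × Bool,
      (J.2.1 = true → (Tr.par J.1) ∈ C.Op) → (J.2.2 = true → J.1.succ ∈ C.Op) →
      (J.2.1 = true ∨ J.2.2 = true) → ∀ v w : ℂ,
      (∃ v0 ∈ C.sT v1 J.2.1 (Tr.par J.1), ‖v - v0‖ ≤ η) →
      (∃ w0 ∈ C.sT v1 J.2.2 J.1.succ, ‖w - w0‖ ≤ η) →
      (C.sv (Tr.par J.1) v).ok → (C.sv J.1.succ w).ok → (C.sv (Tr.par J.1) v).nn →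
      (C.sv J.1.succ w).nn →
      ‖K J.1 M (C.sv (Tr.par J.1) v) (C.sv J.1.succ w)‖ ≤ D * (M : ℝ) ^ p *
        Real.exp (M * (C.Fc J.1 + C.lT v1 lam t g0 J.2.1 J.1 (Tr.par J.1) v +
          C.lT v1 lam t g0 J.2.2 J.1 J.1.succ w)) := by
  have key : ∃ η : ℝ, 0 < η ∧ ∃ D : ℝ, 0 < D ∧ ∃ p : ℕ, ∀ J : Fin m × Bool × Bool,
      ∀ᶠ M : ℕ in atTop, (J.2.1 = true → (Tr.par J.1) ∈ C.Op) → (J.2.2 = true → J.1.succ ∈ C.Op) →
      (J.2.1 = true ∨ J.2.2 = true) → ∀ v w : ℂ,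
      (∃ v0 ∈ C.sT v1 J.2.1 (Tr.par J.1), ‖v - v0‖ ≤ η) →
      (∃ w0 ∈ C.sT v1 J.2.2 J.1.succ, ‖w - w0‖ ≤ η) →
      (C.sv (Tr.par J.1) v).ok → (C.sv J.1.succ w).ok → (C.sv (Tr.par J.1) v).nn →
      (C.sv J.1.succ w).nn →
      ‖K J.1 M (C.sv (Tr.par J.1) v) (C.sv J.1.succ w)‖ ≤ D * (M : ℝ) ^ p *
        Real.exp (M * (C.Fc J.1 + C.lT v1 lam t g0 J.2.1 J.1 (Tr.par J.1) v +
          C.lT v1 lam t g0 J.2.2 J.1 J.1.succ w)) := by
    refine low_choose (P := fun (J : Fin m × Bool × Bool) (η D : ℝ) (p : ℕ) =>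
      ∀ᶠ M : ℕ in atTop, (J.2.1 = true → (Tr.par J.1) ∈ C.Op) → (J.2.2 = true → J.1.succ ∈ C.Op) →
      (J.2.1 = true ∨ J.2.2 = true) → ∀ v w : ℂ,
      (∃ v0 ∈ C.sT v1 J.2.1 (Tr.par J.1), ‖v - v0‖ ≤ η) →
      (∃ w0 ∈ C.sT v1 J.2.2 J.1.succ, ‖w - w0‖ ≤ η) →
      (C.sv (Tr.par J.1) v).ok → (C.sv J.1.succ w).ok → (C.sv (Tr.par J.1) v).nn →
      (C.sv J.1.succ w).nn →
      ‖K J.1 M (C.sv (Tr.par J.1) v) (C.sv J.1.succ w)‖ ≤ D * (M : ℝ) ^ p *
        Real.exp (M * (C.Fc J.1 + C.lT v1 lam t g0 J.2.1 J.1 (Tr.par J.1) v +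
          C.lT v1 lam t g0 J.2.2 J.1 J.1.succ w))) ?_ ?_
    · intro J η η' D D' p p' h hD0 hη hDD hpp
      filter_upwards [h, eventually_ge_atTop 1] with M h hM
      rintro c1 c2 c3 v w ⟨v0, a1, a2⟩ ⟨w0, a3, a4⟩ o1 o2 n1 n2
      refine (h c1 c2 c3 v w ⟨v0, a1, a2.trans hη⟩ ⟨w0, a3, a4.trans hη⟩ o1 o2 n1 n2).trans ?_
      exact low_pow_le (by exact_mod_cast hM) hD0 hDD hpp
    · rintro ⟨j, b, b'⟩
      by_cases hc : (b = true → (Tr.par j) ∈ C.Op) ∧ (b' = true → j.succ ∈ C.Op) ∧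
          (b = true ∨ b' = true)
      · obtain ⟨c1, c2, c3⟩ := hc
        obtain ⟨η, hη, D, hD0, p, h⟩ := Pool.Agent.S4.low_KF4 (hK j) (C.sv (Tr.par j)) (C.sv j.succ)
          (Cfg.sv_cases _) (Cfg.sv_cases _)
          (fun q => C.Fc j + C.lT v1 lam t g0 b j (Tr.par j) q.1 +
            C.lT v1 lam t g0 b' j j.succ q.2)
          ((continuous_const.add ((Cfg.lT_continuous v1 lam t g0 b j _).comp continuous_fst)).add
            ((Cfg.lT_continuous v1 lam t g0 b' j _).comp continuous_snd))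
          (C.sT v1 b (Tr.par j) ×ˢ C.sT v1 b' j.succ)
          ((Cfg.sT_compact v1 b _).prod (Cfg.sT_compact v1 b' _))
          (fun q hq => H.good j b b' c1 c2 c3 q.1 hq.1 q.2 hq.2)
        refine ⟨η, hη, D, hD0, p, ?_⟩
        filter_upwards [h] with M h
        rintro - - - v w ⟨v0, a1, a2⟩ ⟨w0, a3, a4⟩ o1 o2 n1 n2
        refine h (v, w) ⟨(v0, w0), ⟨a1, a3⟩, ?_⟩ o1 o2 n1 n2
        rw [Prod.dist_eq]
        simp only [dist_eq_norm]
        exact max_le a2 a4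
      · refine ⟨1, one_pos, 1, one_pos, 0, Eventually.of_forall fun M => ?_⟩
        intro c1 c2 c3
        exact absurd ⟨c1, c2, c3⟩ hc
  obtain ⟨η, hη, D, hD, p, h⟩ := key
  exact ⟨η, hη, D, hD, p, eventually_all.2 h⟩

end Pool.Agent.AT.SU
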