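import Pool.Agent.AT.SU.Defs
import Pool.Agent.AT.SU.UnifB
import Pool.Agent.S4.G.UnifC

/-!
# The kernels on the contours: near the critical point
-/

set_option autoImplicit false
set_option linter.unusedSectionVars false

namespace Pool.Agent.AT.SU

open Pool.Agent.S4
open Pool.Agent.H63.VC hiding ext
open Pool.Agent.H63.VC3 Pool.Agent.H63.VC7 Pool.Agent.H25.RK Pool.Agent.S3 Pool.Agent.H63.GO
open Complex Filter Topology MeasureTheory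
open scoped BigOperators Interval

section

variable {m : ℕ} [Tr m] {C : Cfg m} {K : Fin m → ℕ → Sl → Sl → ℂ} {F : Fin m → ℕ → Sl → Sl → ℂ → ℂ}

/-- The slots near the critical point are away from the real line. -/
theorem U4_up (hC : C.Crit) (i : Fin (m + 1)) :
    ∃ κ : ℝ, 0 < κ ∧ ∃ H : ℝ, ∃ ρ : ℝ, 0 < ρ ∧ ∀ t : ℝ, |t - C.xc i| ≤ ρ →
      upk κ (C.sv i (U4_g C i t)) ∧ (C.sv i (U4_g C i t)).ht ≤ H := by
  by_cases hi : i ∈ C.Op
  · have h : 0 < (U4_g C i (C.xc i)).im := by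
      unfold U4_g
      rw [if_pos hi]
      exact gdv_im_pos (by rw [ul_im]; exact hC.th0 i hi) (by rw [ul_im]; exact hC.th1 i hi)
    have hc : Continuous fun t => (U4_g C i t).im := continuous_im.comp (U4_g_cont hC i)
    set κ : ℝ := (U4_g C i (C.xc i)).im / 2 with hκ
    have e1 : ∀ᶠ t in 𝓝 (C.xc i), κ < (U4_g C i t).im :=
      hc.continuousAt.eventually (Ioi_mem_nhds (by linarith))
    have e2 : ∀ᶠ t in 𝓝 (C.xc i), (U4_g C i t).im < 3 * κ :=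
      hc.continuousAt.eventually (Iio_mem_nhds (by linarith))
    obtain ⟨ρ, hρ, hb⟩ := Metric.eventually_nhds_iff.mp (e1.and e2)
    refine ⟨κ, by linarith, 3 * κ, ρ / 2, by positivity, fun t ht => ?_⟩
    obtain ⟨b1, b2⟩ := hb (y := t) (by rw [Real.dist_eq]; linarith)
    have e3 : C.sv i (U4_g C i t) = .op (U4_g C i t) := by
      unfold Cfg.sv
      rw [if_pos hi]
    rw [e3]
    refine ⟨b1.le, ?_⟩
    change |(U4_g C i t).im| ≤ 3 * κ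
    rw [abs_of_pos (by linarith)]
    exact b2.le
  · refine ⟨1, one_pos, 0, 1, one_pos, fun t _ => ?_⟩
    have e3 : C.sv i (U4_g C i t) = .cl (C.s i) := by
      unfold Cfg.sv
      rw [if_neg hi]
    rw [e3]
    exact ⟨trivial, le_rfl⟩

/-- The slots of an edge near the critical point are away from the real line. -/
theorem U4_up2 (hC : C.Crit) (j : Fin m) :
    ∃ κ : ℝ, 0 < κ ∧ ∃ H : ℝ, ∃ ρ : ℝ, 0 < ρ ∧ ∀ ta tb : ℝ, |ta - C.xc (Tr.par j)| ≤ ρ →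
      |tb - C.xc j.succ| ≤ ρ →
      upk κ (C.sv (Tr.par j) (U4_g C (Tr.par j) ta)) ∧ upk κ (C.sv j.succ (U4_g C j.succ tb)) ∧
      (C.sv (Tr.par j) (U4_g C (Tr.par j) ta)).ht ≤ H ∧ (C.sv j.succ (U4_g C j.succ tb)).ht ≤ H := by
  obtain ⟨κ1, hκ1, H1, ρ1, hρ1, h1⟩ := U4_up hC (Tr.par j)
  obtain ⟨κ2, hκ2, H2, ρ2, hρ2, h2⟩ := U4_up hC j.succ
  refine ⟨min κ1 κ2, lt_min hκ1 hκ2, max H1 H2, min ρ1 ρ2, lt_min hρ1 hρ2, fun ta tb ha hb => ?_⟩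
  have a := h1 ta (ha.trans (min_le_left _ _))
  have b := h2 tb (hb.trans (min_le_right _ _))
  exact ⟨upk_mono (min_le_left _ _) a.1, upk_mono (min_le_right _ _) b.1,
    a.2.trans (le_max_left _ _), b.2.trans (le_max_right _ _)⟩

theorem U4_slc_ups (hC : C.Crit) (i : Fin (m + 1)) : ups (C.slc i) := by
  unfold Cfg.slc
  by_cases hi : i ∈ C.Op
  · rw [if_pos hi]
    exact gdv_im_pos (u := C.uc i) (by change 0 < (ul (C.θ i) (C.xc i)).im; rw [ul_im]; exact hC.th0 i hi)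
      (by change (ul (C.θ i) (C.xc i)).im < Real.pi / 2; rw [ul_im]; exact hC.th1 i hi)
  · rw [if_neg hi]
    trivial

/-- The estimate near the critical point in the parameters. -/
theorem U4_loc (hK : ∀ j, KL (K j) (F j)) (hF : ∀ j, KFu (F j)) (hC : C.Crit)
    (hs : ∀ i, i ∉ C.Op → C.s i = 1 ∨ C.s i = -1)
    {v1 : Fin (m + 1) → ℝ} {lam : Fin m → Fin (m + 1) → ℝ}
    (hE : C.Edg v1 lam) (j : Fin m) :
    ∃ r1 : ℝ, 0 < r1 ∧ ∀ r : ℝ, 0 < r → r ≤ r1 → ∃ ρ : ℝ, 0 < ρ ∧ ∃ δ : ℝ, 0 < δ ∧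
    ∃ D : ℝ, 0 < D ∧ ∃ p : ℕ, ∀ᶠ M : ℕ in atTop, ∀ ta tb : ℝ,
      |ta - C.xc (Tr.par j)| ≤ ρ → |tb - C.xc j.succ| ≤ ρ →
      ‖K j M (C.sv (Tr.par j) (U4_g C (Tr.par j) ta)) (C.sv j.succ (U4_g C j.succ tb)) -
        ∫ s in (-r)..r, (M : ℂ) * F j M (C.sv (Tr.par j) (U4_g C (Tr.par j) ta))
          (C.sv j.succ (U4_g C j.succ tb)) (C.yc j + (C.L j (Tr.par j) * (ta - C.xc (Tr.par j)) +
            C.L j j.succ * (tb - C.xc j.succ)) + s)‖ ≤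
        D * (M : ℝ) ^ p * Real.exp (M * (C.Lt j (U4_g C (Tr.par j) ta) (U4_g C j.succ tb) -
          δ)) := by
  obtain ⟨ra, hra, hKL⟩ := hK j (C.slc (Tr.par j)) (C.slc j.succ) (C.yc j) (C.Fc j)
    (by rw [← U4_slc]; exact (U4_g_ok hC hs _ _).1)
    (by rw [← U4_slc]; exact (U4_g_ok hC hs _ _).1)
    (U4_slc_ups hC _) (U4_slc_ups hC _) (hE.near j)
  obtain ⟨rb, hrb, hmax⟩ := edge_max (hC.dom j).1 (hC.dom j).2 (hC.hy j) (hC.hA j)
  obtain ⟨hre0, hre1⟩ := U4_dom hC j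
  obtain ⟨κ, hκ, H, ρκ, hρκ, hup⟩ := U4_up2 hC j
  obtain ⟨K2, hK2, p2, hsh⟩ := U4_shift (hF j) (κ := κ) (H := H) hκ
  refine ⟨min (min ra rb) (min ((C.yc j).re / 2) ((1 / 2 - (C.yc j).re) / 2)),
    lt_min (lt_min hra hrb) (lt_min (by linarith) (by linarith)), fun r hr0 hrle => ?_⟩
  have l1 : r ≤ ra := hrle.trans ((min_le_left _ _).trans (min_le_left _ _))
  have l2 : r ≤ rb := hrle.trans ((min_le_left _ _).trans (min_le_right _ _))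
  have l3 : r ≤ (C.yc j).re / 2 := hrle.trans ((min_le_right _ _).trans (min_le_left _ _))
  have l4 : r ≤ (1 / 2 - (C.yc j).re) / 2 :=
    hrle.trans ((min_le_right _ _).trans (min_le_right _ _))
  obtain ⟨ρ1, hρ1, δ1, hδ1, K1, hK1, p1, hev1⟩ := hKL r hr0 l1
  obtain ⟨m1, m2⟩ := hmax r hr0 l2
  have hFc : C.Fc j = EE (C.slc (Tr.par j)) (C.slc j.succ) (C.yc j) := rfl
  rw [← hFc] at m1 m2
  -- the loss at the short sides
  obtain ⟨δ2, hδ2, d1, d2⟩ : ∃ δ2 : ℝ, 0 < δ2 ∧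
      EE (C.slc (Tr.par j)) (C.slc j.succ) (C.yc j + r) < C.Fc j - δ2 ∧
      EE (C.slc (Tr.par j)) (C.slc j.succ) (C.yc j - r) < C.Fc j - δ2 := by
    refine ⟨min (C.Fc j - EE (C.slc (Tr.par j)) (C.slc j.succ) (C.yc j + r))
      (C.Fc j - EE (C.slc (Tr.par j)) (C.slc j.succ) (C.yc j - r)) / 2, ?_, ?_, ?_⟩
    · have : 0 < min (C.Fc j - EE (C.slc (Tr.par j)) (C.slc j.succ) (C.yc j + r))
        (C.Fc j - EE (C.slc (Tr.par j)) (C.slc j.succ) (C.yc j - r)) :=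
        lt_min (by linarith) (by linarith)
      linarith
    · have := min_le_left (C.Fc j - EE (C.slc (Tr.par j)) (C.slc j.succ) (C.yc j + r))
        (C.Fc j - EE (C.slc (Tr.par j)) (C.slc j.succ) (C.yc j - r))
      linarith
    · have := min_le_right (C.Fc j - EE (C.slc (Tr.par j)) (C.slc j.succ) (C.yc j + r))
        (C.Fc j - EE (C.slc (Tr.par j)) (C.slc j.succ) (C.yc j - r))
      linarith
  have hEc := U4_EE_cont2 hC j
  have ev1 := U4_ev hEc (x0 := ((C.xc (Tr.par j), C.xc j.succ), C.yc j + r))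
    (c := C.Fc j - δ2) (by rw [U4_E_xc]; exact d1)
  have ev2 := U4_ev hEc (x0 := ((C.xc (Tr.par j), C.xc j.succ), C.yc j - r))
    (c := C.Fc j - δ2) (by rw [U4_E_xc]; exact d2)
  obtain ⟨ε1, hε1, b1⟩ := Metric.eventually_nhds_iff.mp ev1
  obtain ⟨ε2, hε2, b2⟩ := Metric.eventually_nhds_iff.mp ev2
  set ε : ℝ := min (min ε1 ε2) (min (C.yc j).re (1 / 2 - (C.yc j).re) / 4) with hεdef
  have hε0 : 0 < ε := lt_min (lt_min hε1 hε2) (by
    have : 0 < min (C.yc j).re (1 / 2 - (C.yc j).re) := lt_min hre0 (by linarith)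
    linarith)
  have hεa : ε ≤ ε1 := (min_le_left _ _).trans (min_le_left _ _)
  have hεb : ε ≤ ε2 := (min_le_left _ _).trans (min_le_right _ _)
  have hεc : ε ≤ (C.yc j).re / 4 := (min_le_right _ _).trans (by
    have := min_le_left (C.yc j).re (1 / 2 - (C.yc j).re)
    linarith)
  have hεd : ε ≤ (1 / 2 - (C.yc j).re) / 4 := (min_le_right _ _).trans (by
    have := min_le_right (C.yc j).re (1 / 2 - (C.yc j).re)
    linarith)
  set Δ : ℝ × ℝ → ℂ := fun q => C.L j (Tr.par j) * (q.1 - C.xc (Tr.par j)) +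
    C.L j j.succ * (q.2 - C.xc j.succ) with hΔ
  have hDc : Continuous fun q => ‖Δ q‖ := by
    rw [hΔ]
    fun_prop
  have hD0 : Δ (C.xc (Tr.par j), C.xc j.succ) = 0 := by
    rw [hΔ]
    simp
  have ev3 := U4_ev hDc (x0 := (C.xc (Tr.par j), C.xc j.succ)) (c := ε)
    (by rw [hD0, norm_zero]; exact hε0)
  set δ : ℝ := min δ1 δ2 / 2 with hδ
  have hδ0 : 0 < δ := by
    have : 0 < min δ1 δ2 := lt_min hδ1 hδ2
    linarith
  have hδa : 2 * δ ≤ δ1 := by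
    have := min_le_left δ1 δ2
    linarith
  have hδb : 2 * δ ≤ δ2 := by
    have := min_le_right δ1 δ2
    linarith
  have hLc : Continuous fun q : ℝ × ℝ => -C.Lt j (U4_g C (Tr.par j) q.1) (U4_g C j.succ q.2) :=
    ((U4_Lt_cont j).comp (((U4_g_cont hC (Tr.par j)).comp continuous_fst).prodMk
      ((U4_g_cont hC j.succ).comp continuous_snd))).neg
  have ev4 := U4_ev hLc (x0 := (C.xc (Tr.par j), C.xc j.succ)) (c := -(C.Fc j - δ))
    (by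
      simp only
      rw [U4_Lt_xc]
      linarith)
  have ev5 : ∀ᶠ q : ℝ × ℝ in 𝓝 (C.xc (Tr.par j), C.xc j.succ),
      Sl.near ρ1 (C.sv (Tr.par j) (U4_g C (Tr.par j) q.1)) (C.slc (Tr.par j)) :=
    (continuous_fst.tendsto (C.xc (Tr.par j), C.xc j.succ)).eventually
      (U4_sv_near hC (Tr.par j) hρ1)
  have ev6 : ∀ᶠ q : ℝ × ℝ in 𝓝 (C.xc (Tr.par j), C.xc j.succ),
      Sl.near ρ1 (C.sv j.succ (U4_g C j.succ q.2)) (C.slc j.succ) :=
    (continuous_snd.tendsto (C.xc (Tr.par j), C.xc j.succ)).eventually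
      (U4_sv_near hC j.succ hρ1)
  obtain ⟨ρ', hρ', b3⟩ := Metric.eventually_nhds_iff.mp (ev3.and (ev4.and (ev5.and ev6)))
  set ρ : ℝ := min (min (ρ' / 2) (ε / 2)) ρκ with hρ
  have hρ0 : 0 < ρ := lt_min (lt_min (by linarith) (by linarith)) hρκ
  have hρa : ρ ≤ ρ' / 2 := (min_le_left _ _).trans (min_le_left _ _)
  have hρb : ρ ≤ ε / 2 := (min_le_left _ _).trans (min_le_right _ _)
  have hρc : ρ ≤ ρκ := min_le_right _ _
  refine ⟨ρ, hρ0, δ, hδ0, K1 + K2 * Real.exp (K2 * (|(C.yc j).im| + 1)), by positivity,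
    p1 + p2, ?_⟩
  filter_upwards [hev1, hsh, eventually_ge_atTop 1] with M hM hsh hM1 ta tb hta htb
  obtain ⟨u1, u2, u3, u4⟩ := hup ta tb (hta.trans hρc) (htb.trans hρc)
  have hM0 : (1 : ℝ) ≤ M := by exact_mod_cast hM1
  have hdist : dist (ta, tb) (C.xc (Tr.par j), C.xc j.succ) < ρ' := by
    rw [Prod.dist_eq, max_lt_iff]
    simp only [Real.dist_eq]
    constructor <;> linarith
  obtain ⟨c1, c2, c3, c4⟩ := b3 (y := (ta, tb)) hdist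
  simp only at c1 c2 c3 c4
  set d : ℂ := Δ (ta, tb) with hd
  have hd' : C.L j (Tr.par j) * (ta - C.xc (Tr.par j)) + C.L j j.succ * (tb - C.xc j.succ) = d :=
    rfl
  rw [hd']
  obtain ⟨o1, n1⟩ := U4_g_ok hC hs (Tr.par j) ta
  obtain ⟨o2, n2⟩ := U4_g_ok hC hs j.succ tb
  have t1 := hM (C.sv (Tr.par j) (U4_g C (Tr.par j) ta)) (C.sv j.succ (U4_g C j.succ tb))
    o1 o2 n1 n2 c3 c4
  rw [← intervalIntegral.integral_const_mul] at t1
  have hEb : ∀ t : ℝ, 0 ≤ t → t ≤ 1 →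
      EE (C.sv (Tr.par j) (U4_g C (Tr.par j) ta)) (C.sv j.succ (U4_g C j.succ tb))
        (C.yc j + r + t * d) ≤ C.Fc j - δ2 ∧
      EE (C.sv (Tr.par j) (U4_g C (Tr.par j) ta)) (C.sv j.succ (U4_g C j.succ tb))
        (C.yc j - r + t * d) ≤ C.Fc j - δ2 := by
    intro t ht0 ht1
    have htd : ‖(t : ℂ) * d‖ ≤ ‖d‖ := by
      rw [norm_mul, norm_real, Real.norm_eq_abs, abs_of_nonneg ht0]
      have := norm_nonneg d
      nlinarith
    have hprod : ∀ w : ℂ, dist ((ta, tb), w + t * d) ((C.xc (Tr.par j), C.xc j.succ), w) < ε := by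
      intro w
      rw [Prod.dist_eq, max_lt_iff, Prod.dist_eq, max_lt_iff]
      simp only [dist_eq_norm, Real.norm_eq_abs, add_sub_cancel_left]
      refine ⟨⟨by linarith, by linarith⟩, by linarith⟩
    exact ⟨(b1 (y := ((ta, tb), C.yc j + r + t * d)) ((hprod _).trans_le hεa)).le,
      (b2 (y := ((ta, tb), C.yc j - r + t * d)) ((hprod _).trans_le hεb)).le⟩
  have t2 := hsh (C.sv (Tr.par j) (U4_g C (Tr.par j) ta)) (C.sv j.succ (U4_g C j.succ tb))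
    (C.yc j) d r (C.Fc j - δ2) o1 o2 u1 u2 u3 u4 hr0 (by linarith) (by linarith) hEb
  have hLt : C.Fc j - δ < C.Lt j (U4_g C (Tr.par j) ta) (U4_g C j.succ tb) := by linarith
  generalize C.Lt j (U4_g C (Tr.par j) ta) (U4_g C j.succ tb) = Λ at hLt ⊢
  have x1 : Real.exp (M * (C.Fc j - δ1)) ≤ Real.exp (M * (Λ - δ)) := by
    apply Real.exp_le_exp.2
    apply mul_le_mul_of_nonneg_left _ (by linarith)
    linarith
  have x2 : Real.exp (M * (C.Fc j - δ2)) ≤ Real.exp (M * (Λ - δ)) := by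
    apply Real.exp_le_exp.2
    apply mul_le_mul_of_nonneg_left _ (by linarith)
    linarith
  have y1 : (M : ℝ) ^ p1 ≤ (M : ℝ) ^ (p1 + p2) := pow_le_pow_right₀ hM0 (by omega)
  have y2 : (M : ℝ) ^ p2 ≤ (M : ℝ) ^ (p1 + p2) := pow_le_pow_right₀ hM0 (by omega)
  calc _ ≤ K1 * (M : ℝ) ^ p1 * Real.exp (M * (C.Fc j - δ1)) +
        K2 * (M : ℝ) ^ p2 * Real.exp (K2 * (|(C.yc j).im| + 1)) *
          Real.exp (M * (C.Fc j - δ2)) := U4_norm_sub t1 t2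
    _ ≤ K1 * (M : ℝ) ^ (p1 + p2) * Real.exp (M * (Λ - δ)) +
        K2 * (M : ℝ) ^ (p1 + p2) * Real.exp (K2 * (|(C.yc j).im| + 1)) *
          Real.exp (M * (Λ - δ)) := by gcongr
    _ = _ := by ring
/-- The integrand of an edge near the critical point. -/
theorem U4_fe (v1 : Fin (m + 1) → ℝ) (ε : ℝ) (M : ℕ) (j : Fin m) (x : C.Op → ℝ) (s : ℝ)
    (ha : (Tr.par j) ∈ C.Op → |U4_x C x (Tr.par j)| ≤ xl (C.θ (Tr.par j)) (v1 (Tr.par j)))
    (hb : j.succ ∈ C.Op → |U4_x C x j.succ| ≤ xl (C.θ j.succ) (v1 j.succ)) :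
    feF C F v1 ε M j x s = (M : ℂ) * F j M (C.sv (Tr.par j) (U4_g C (Tr.par j) (U4_x C x (Tr.par j))))
      (C.sv j.succ (U4_g C j.succ (U4_x C x j.succ)))
      (C.yc j + (C.L j (Tr.par j) * (U4_x C x (Tr.par j) - C.xc (Tr.par j)) +
        C.L j j.succ * (U4_x C x j.succ - C.xc j.succ)) + s) := by
  unfold feF
  rw [U4_slx, U4_slx, U4_pt_eq v1 ε x _ ha, U4_pt_eq v1 ε x _ hb]
  congr 2
  have e1 : (if h : (Tr.par j) ∈ C.Op then
      C.L j (Tr.par j) * ((x ⟨(Tr.par j), h⟩ : ℂ) - C.xc (Tr.par j)) else 0) =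
      C.L j (Tr.par j) * (U4_x C x (Tr.par j) - C.xc (Tr.par j)) := by
    unfold U4_x
    by_cases h : (Tr.par j) ∈ C.Op
    · rw [dif_pos h, dif_pos h]
    · rw [dif_neg h, dif_neg h, sub_self, mul_zero]
  have e2 : (if h : j.succ ∈ C.Op then
      C.L j j.succ * ((x ⟨j.succ, h⟩ : ℂ) - C.xc j.succ) else 0) =
      C.L j j.succ * (U4_x C x j.succ - C.xc j.succ) := by
    unfold U4_x
    by_cases h : j.succ ∈ C.Op
    · rw [dif_pos h, dif_pos h]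
    · rw [dif_neg h, dif_neg h, sub_self, mul_zero]
  rw [e1, e2]
  ring
/-- The kernels near the critical point, the other variables and `ε` are arbitrary. -/
theorem U4_loc_eps (hK : ∀ j, KL (K j) (F j)) (hF : ∀ j, KFu (F j)) (hC : C.Crit)
    (hs : ∀ i, i ∉ C.Op → C.s i = 1 ∨ C.s i = -1)
    {v1 : Fin (m + 1) → ℝ} {lam : Fin m → Fin (m + 1) → ℝ}
    (hE : C.Edg v1 lam) :
    ∃ r1 : ℝ, 0 < r1 ∧ ∀ r : ℝ, 0 < r → r ≤ r1 → ∃ ρ : ℝ, 0 < ρ ∧ ∃ δ : ℝ, 0 < δ ∧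
    ∃ D : ℝ, 0 < D ∧ ∃ p : ℕ, ∀ᶠ M : ℕ in atTop, ∀ (j : Fin m) (ε : ℝ) (x : C.Op → ℝ),
      (¬ ∃ i ∈ C.ic j, ρ < |x i - C.xc i|) →
      ‖kkF C K v1 ε M j x - ∫ s in (-r)..r, feF C F v1 ε M j x s‖ ≤
        D * (M : ℝ) ^ p * Real.exp (M * (C.ka v1 lam ε j x - δ)) := by
  obtain ⟨ρ0, hρ0, hxl⟩ := U4_near_xl hC hE
  have hL := fun j => U4_loc hK hF hC hs hE j
  choose r1 hr1 hr using hL
  obtain ⟨r0, hr0, hr0'⟩ := U4_pos r1 hr1
  refine ⟨r0, hr0, fun r hr' hrle => ?_⟩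
  have hr2 := fun j => hr j r hr' (hrle.trans (hr0' j))
  choose ρ hρ δ hδ D hK0 p hp using hr2
  obtain ⟨ρ1, hρ1, hρ1'⟩ := U4_pos ρ hρ
  refine ⟨min ρ0 ρ1, lt_min hρ0 hρ1, ?_⟩
  have key : ∀ (j : Fin m) (M : ℕ), (∀ ta tb : ℝ,
      |ta - C.xc (Tr.par j)| ≤ ρ j → |tb - C.xc j.succ| ≤ ρ j →
      ‖K j M (C.sv (Tr.par j) (U4_g C (Tr.par j) ta)) (C.sv j.succ (U4_g C j.succ tb)) -
        ∫ s in (-r)..r, (M : ℂ) * F j M (C.sv (Tr.par j) (U4_g C (Tr.par j) ta))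
          (C.sv j.succ (U4_g C j.succ tb)) (C.yc j + (C.L j (Tr.par j) * (ta - C.xc (Tr.par j)) +
            C.L j j.succ * (tb - C.xc j.succ)) + s)‖ ≤
        D j * (M : ℝ) ^ p j * Real.exp (M * (C.Lt j (U4_g C (Tr.par j) ta)
          (U4_g C j.succ tb) - δ j))) → ∀ (ε : ℝ) (x : C.Op → ℝ),
      (¬ ∃ i ∈ C.ic j, min ρ0 ρ1 < |x i - C.xc i|) →
      ‖kkF C K v1 ε M j x - ∫ s in (-r)..r, feF C F v1 ε M j x s‖ ≤
        D j * (M : ℝ) ^ p j * Real.exp (M * (C.ka v1 lam ε j x - δ j)) := by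
    intro j M hM ε x hx
    obtain ⟨g1, g2⟩ := U4_x_near (lt_min hρ0 hρ1).le hx
    have ha : (Tr.par j) ∈ C.Op → |U4_x C x (Tr.par j)| ≤ xl (C.θ (Tr.par j)) (v1 (Tr.par j)) :=
      fun h => hxl _ h _ (g1.trans (min_le_left _ _))
    have hb : j.succ ∈ C.Op → |U4_x C x j.succ| ≤ xl (C.θ j.succ) (v1 j.succ) :=
      fun h => hxl _ h _ (g2.trans (min_le_left _ _))
    have h3 := hM (U4_x C x (Tr.par j)) (U4_x C x j.succ)
      ((g1.trans (min_le_right _ _)).trans (hρ1' j)) ((g2.trans (min_le_right _ _)).trans (hρ1' j))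
    have e1 : ∀ s : ℝ, feF C F v1 ε M j x s = _ := fun s => U4_fe v1 ε M j x s ha hb
    simp only [e1]
    rw [U4_kk, U4_ka, U4_pt_eq v1 ε x _ ha, U4_pt_eq v1 ε x _ hb, U4_Lw hC hE j ha hb]
    exact h3
  obtain ⟨δ', hδ', D', hK', p', hp'⟩ := U4_comb (J := Fin m) (X := ℝ × (C.Op → ℝ))
    (κ := fun M j x => ‖kkF C K v1 x.1 M j x.2 - ∫ s in (-r)..r, feF C F v1 x.1 M j x.2 s‖)
    (L := fun j x => C.ka v1 lam x.1 j x.2)
    (R := fun j x => ¬ ∃ i ∈ C.ic j, min ρ0 ρ1 < |x.2 i - C.xc i|) (fun j =>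
      ⟨δ j, hδ j, D j, hK0 j, p j, by
        filter_upwards [hp j] with M hM
        rintro ⟨ε, x⟩ hx
        exact key j M hM ε x hx⟩)
  refine ⟨δ', hδ', D', hK', p', ?_⟩
  filter_upwards [hp'] with M hM j ε x hx
  exact hM j (ε, x) hx

/-- The kernels near the critical point. -/
theorem kkF_loc (hK : ∀ j, KL (K j) (F j)) (hF : ∀ j, KFu (F j)) (hC : C.Crit) (hs : ∀ i, i ∉ C.Op → C.s i = 1 ∨ C.s i = -1)
    {v1 : Fin (m + 1) → ℝ} {lam : Fin m → Fin (m + 1) → ℝ}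
    (hE : C.Edg v1 lam) {ε : ℝ} (hε : 0 < ε) :
    ∃ r1 : ℝ, 0 < r1 ∧ ∀ r : ℝ, 0 < r → r ≤ r1 → ∃ ρ : ℝ, 0 < ρ ∧ ∃ δ : ℝ, 0 < δ ∧
    ∃ D : ℝ, 0 < D ∧ ∃ p : ℕ, ∀ᶠ M : ℕ in atTop, ∀ (j : Fin m) (x : C.Op → ℝ),
      (∀ i, |x i - C.xc i| ≤ ρ) →
      ‖kkF C K v1 ε M j x - ∫ s in (-r)..r, feF C F v1 ε M j x s‖ ≤
        D * (M : ℝ) ^ p * Real.exp (M * (C.ka v1 lam ε j x - δ)) := by
  obtain ⟨r1, hr1, h⟩ := U4_loc_eps hK hF hC hs hE
  refine ⟨r1, hr1, fun r h1 h2 => ?_⟩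
  obtain ⟨ρ, hρ, δ, hδ, D, hK0, p, hp⟩ := h r h1 h2
  refine ⟨ρ, hρ, δ, hδ, D, hK0, p, ?_⟩
  filter_upwards [hp] with M hM j x hx
  refine hM j ε x ?_
  rintro ⟨i, _, hi⟩
  exact absurd (hx i) (not_le.mpr hi)
end

end Pool.Agent.AT.SU
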