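import Pool.Agent.AT.SU.Defs
import Pool.Agent.AT.SU.UnifC

/-!
# The kernels on the contours: the bound
-/

set_option autoImplicit false
set_option linter.unusedSectionVars false

namespace Pool.Agent.AT.SU

open Pool.Agent.S4
open Pool.Agent.H63.VC hiding ext
open Pool.Agent.H63.VC3 Pool.Agent.H63.VC7 Pool.Agent.H25.RK Pool.Agent.S3 Pool.Agent.H63.GO
open Complex Filter Topology MeasureTheory
open scoped BigOperators Interval

variable {m : ℕ} [Tr m] {C : Cfg m} {K : Fin m → ℕ → Sl → Sl → ℂ} {F : Fin m → ℕ → Sl → Sl → ℂ → ℂ}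

/-- The bound of the integral near the critical point. -/
theorem U4_int (hF : ∀ j, KFu (F j)) (hC : C.Crit) (hs : ∀ i, i ∉ C.Op → C.s i = 1 ∨ C.s i = -1)
    (j : Fin m) :
    ∃ ρ : ℝ, 0 < ρ ∧ ∃ K : ℝ, 0 < K ∧ ∃ p : ℕ, ∀ᶠ M : ℕ in atTop, ∀ r : ℝ, 0 < r → r ≤ ρ →
      ∀ ta tb : ℝ, |ta - C.xc (Tr.par j)| ≤ ρ → |tb - C.xc j.succ| ≤ ρ →
      ((Tr.par j) ∉ C.Op → ta = C.xc (Tr.par j)) → (j.succ ∉ C.Op → tb = C.xc j.succ) →
      ‖∫ s in (-r)..r, (M : ℂ) * F j M (C.sv (Tr.par j) (U4_g C (Tr.par j) ta))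
          (C.sv j.succ (U4_g C j.succ tb)) (C.yc j + (C.L j (Tr.par j) * (ta - C.xc (Tr.par j)) +
            C.L j j.succ * (tb - C.xc j.succ)) + s)‖ ≤
        K * (M : ℝ) ^ p * Real.exp (M * C.Lt j (U4_g C (Tr.par j) ta) (U4_g C j.succ tb)) := by
  obtain ⟨ρ0, hρ0, hneg⟩ := Cfg.edge_neg hC j
  obtain ⟨hre0, hre1⟩ := U4_dom hC j
  obtain ⟨κ, hκ, H, ρκ, hρκ, hup⟩ := U4_up2 hC j
  obtain ⟨K, hK, p, hFM⟩ := (hF j).bound κ H hκ
  set Λ : ℝ := ‖C.L j (Tr.par j)‖ + ‖C.L j j.succ‖ + 1 with hΛ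
  have hΛ0 : 0 < Λ := by positivity
  have hq0 : 0 < min (C.yc j).re (1 / 2 - (C.yc j).re) := lt_min hre0 (by linarith)
  set q : ℝ := min (C.yc j).re (1 / 2 - (C.yc j).re) / 4 with hq
  have hqa : q ≤ (C.yc j).re / 4 := by
    have := min_le_left (C.yc j).re (1 / 2 - (C.yc j).re)
    rw [hq]
    linarith
  have hqb : q ≤ (1 / 2 - (C.yc j).re) / 4 := by
    have := min_le_right (C.yc j).re (1 / 2 - (C.yc j).re)
    rw [hq]
    linarith
  have hqpos : 0 < q := by rw [hq]; linarith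
  set ρ : ℝ := min (min ρ0 (min q (q / Λ))) ρκ with hρ
  have hρpos : 0 < ρ := lt_min (lt_min hρ0 (lt_min hqpos (by positivity))) hρκ
  have hρa : ρ ≤ ρ0 := (min_le_left _ _).trans (min_le_left _ _)
  have hρb : ρ ≤ q := (min_le_left _ _).trans ((min_le_right _ _).trans (min_le_left _ _))
  have hρc : ρ ≤ q / Λ := (min_le_left _ _).trans ((min_le_right _ _).trans (min_le_right _ _))
  have hρd : ρ ≤ ρκ := min_le_right _ _
  refine ⟨ρ, hρpos, K * Real.exp (K * (|(C.yc j).im| + 1)), by positivity, p + 1, ?_⟩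
  filter_upwards [hFM, eventually_ge_atTop 1] with M hFM hM r hr0 hr ta tb hta htb hca hcb
  obtain ⟨u1, u2, u3, u4⟩ := hup ta tb (hta.trans hρd) (htb.trans hρd)
  have hM0 : (1 : ℝ) ≤ M := by exact_mod_cast hM
  set d : ℂ := C.L j (Tr.par j) * (ta - C.xc (Tr.par j)) + C.L j j.succ * (tb - C.xc j.succ) with hd
  have hdn : ‖d‖ ≤ q := by
    have e1 : ‖((ta : ℂ) - C.xc (Tr.par j))‖ ≤ ρ := by
      rw [← ofReal_sub, norm_real]
      exact hta
    have e2 : ‖((tb : ℂ) - C.xc j.succ)‖ ≤ ρ := by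
      rw [← ofReal_sub, norm_real]
      exact htb
    calc ‖d‖ ≤ ‖C.L j (Tr.par j) * (ta - C.xc (Tr.par j))‖ +
          ‖C.L j j.succ * (tb - C.xc j.succ)‖ := norm_add_le _ _
      _ ≤ ‖C.L j (Tr.par j)‖ * ρ + ‖C.L j j.succ‖ * ρ := by
          rw [norm_mul, norm_mul]
          gcongr
      _ ≤ Λ * ρ := by
          rw [hΛ]
          linarith
      _ ≤ Λ * (q / Λ) := by gcongr
      _ = q := by field_simp
  have hcs : ∀ s ∈ Ι (-r) r, |s| ≤ ρ := by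
    intro s hs
    rw [Set.uIoc_of_le (by linarith)] at hs
    exact abs_le.mpr ⟨by linarith [hs.1], by linarith [hs.2]⟩
  have hbd : ∀ s ∈ Ι (-r) r, ‖(M : ℂ) * F j M (C.sv (Tr.par j) (U4_g C (Tr.par j) ta))
      (C.sv j.succ (U4_g C j.succ tb)) (C.yc j + d + s)‖ ≤
      M * (K * (M : ℝ) ^ p * Real.exp (K * (|(C.yc j).im| + 1)) *
        Real.exp (M * C.Lt j (U4_g C (Tr.par j) ta) (U4_g C j.succ tb))) := by
    intro s hs'
    have hsρ := hcs s hs'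
    have hE := hneg (ta - C.xc (Tr.par j)) (tb - C.xc j.succ) s (hta.trans hρa) (htb.trans hρa)
      (hsρ.trans hρa) (fun h => by rw [hca h, sub_self]) (fun h => by rw [hcb h, sub_self])
    rw [show C.xc (Tr.par j) + (ta - C.xc (Tr.par j)) = ta by ring,
      show C.xc j.succ + (tb - C.xc j.succ) = tb by ring, U4_sv_g, U4_sv_g] at hE
    have e0 : C.Lt j (gdv (ul (C.θ (Tr.par j)) ta)) (gdv (ul (C.θ j.succ) tb)) =
        C.Lt j (U4_g C (Tr.par j) ta) (U4_g C j.succ tb) := by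
      unfold Cfg.Lt
      rw [U4_lv_g, U4_lv_g]
    have e1 : C.yc j + C.L j (Tr.par j) * ((ta - C.xc (Tr.par j) : ℝ) : ℂ) +
        C.L j j.succ * ((tb - C.xc j.succ : ℝ) : ℂ) + s = C.yc j + d + s := by
      rw [hd]
      push_cast
      ring
    rw [e0, e1] at hE
    have hdre := (abs_re_le_norm d).trans hdn
    have hdim := (abs_im_le_norm d).trans hdn
    rw [abs_le] at hdre hsρ
    have hre : (C.yc j + d + s).re = (C.yc j).re + d.re + s := by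
      rw [add_re, add_re, ofReal_re]
    have him : (C.yc j + d + s).im = (C.yc j).im + d.im := by
      rw [add_im, add_im, ofReal_im, add_zero]
    have hb := hFM _ _ (C.yc j + d + s) (U4_g_ok hC hs (Tr.par j) ta).1
      (U4_g_ok hC hs j.succ tb).1 u1 u2 u3 u4 (by rw [hre]; linarith [hdre.1, hsρ.1])
      (by rw [hre]; linarith [hdre.2, hsρ.2])
    rw [norm_mul, Complex.norm_natCast]
    apply mul_le_mul_of_nonneg_left _ (by linarith)
    have hi1 : |(C.yc j + d + s).im| ≤ |(C.yc j).im| + 1 := by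
      rw [him]
      exact (abs_add_le _ _).trans (by linarith)
    have hx2 : Real.exp (M * EE (C.sv (Tr.par j) (U4_g C (Tr.par j) ta))
        (C.sv j.succ (U4_g C j.succ tb)) (C.yc j + d + s)) ≤
        Real.exp (M * C.Lt j (U4_g C (Tr.par j) ta) (U4_g C j.succ tb)) := by
      apply Real.exp_le_exp.2
      exact mul_le_mul_of_nonneg_left hE (by linarith)
    have hx1 : Real.exp (K * |(C.yc j + d + s).im|) ≤
        Real.exp (K * (|(C.yc j).im| + 1)) := by gcongr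
    refine hb.trans ?_
    gcongr
  have h := intervalIntegral.norm_integral_le_of_norm_le_const hbd
  refine h.trans ?_
  have hr2 : |r - -r| ≤ 1 := by
    rw [show r - -r = 2 * r by ring, abs_of_pos (by linarith)]
    linarith
  have hP : 0 ≤ M * (K * (M : ℝ) ^ p * Real.exp (K * (|(C.yc j).im| + 1)) *
        Real.exp (M * C.Lt j (U4_g C (Tr.par j) ta) (U4_g C j.succ tb))) := by positivity
  calc _ ≤ M * (K * (M : ℝ) ^ p * Real.exp (K * (|(C.yc j).im| + 1)) *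
        Real.exp (M * C.Lt j (U4_g C (Tr.par j) ta) (U4_g C j.succ tb))) * 1 :=
        mul_le_mul_of_nonneg_left hr2 hP
    _ = _ := by ring
/-- The bound of the kernels, uniformly in the height `ε`. -/
theorem kkF_bd (hK : ∀ j, KB (K j)) (hK' : ∀ j, KL (K j) (F j)) (hF : ∀ j, KFu (F j)) (hC : C.Crit)
    (hs : ∀ i, i ∉ C.Op → C.s i = 1 ∨ C.s i = -1)
    {v1 : Fin (m + 1) → ℝ} {lam : Fin m → Fin (m + 1) → ℝ}
    (hE : C.Edg v1 lam) : ∃ ε0 : ℝ, 0 < ε0 ∧ (∀ i ∈ C.Op, ε0 ≤ bl (C.θ i) (v1 i)) ∧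
    ∃ D : ℝ, 0 < D ∧ ∃ p : ℕ, ∀ᶠ M : ℕ in atTop, ∀ (j : Fin m) (ε : ℝ) (x : C.Op → ℝ),
      0 < ε → ε ≤ ε0 →
      ‖kkF C K v1 ε M j x‖ ≤ D * (M : ℝ) ^ p * Real.exp (M * C.ka v1 lam ε j x) := by
  obtain ⟨ε0, hε0, hbl, hfar'⟩ := U4_far_eps hK hC hs hE
  refine ⟨ε0, hε0, hbl, ?_⟩
  obtain ⟨r1, hr1, hloc⟩ := U4_loc_eps hK' hF hC hs hE
  obtain ⟨ρx, hρx, hxl⟩ := U4_near_xl hC hE
  have hI := fun j => U4_int hF hC hs j
  choose ρI hρI KI hKI pI hIb using hI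
  obtain ⟨ρ1, hρ1, hρ1'⟩ := U4_pos ρI hρI
  set r : ℝ := min r1 ρ1 with hr
  have hr0 : 0 < r := lt_min hr1 hρ1
  obtain ⟨ρ2, hρ2, δ2, hδ2, K2, hK2, p2, hev2⟩ := hloc r hr0 (min_le_left _ _)
  set ρ : ℝ := min ρ2 (min ρ1 ρx) with hρ
  have hρ0 : 0 < ρ := lt_min hρ2 (lt_min hρ1 hρx)
  have hρa : ρ ≤ ρ2 := min_le_left _ _
  have hρb : ρ ≤ ρ1 := (min_le_right _ _).trans (min_le_left _ _)
  have hρc : ρ ≤ ρx := (min_le_right _ _).trans (min_le_right _ _)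
  obtain ⟨δ3, hδ3, K3, hK3, p3, hev3⟩ := hfar' ρ hρ0
  refine ⟨K3 + K2 + ∑ j, KI j, by
    have : 0 ≤ ∑ j, KI j := Finset.sum_nonneg fun j _ => (hKI j).le
    linarith, p3 + p2 + ∑ j, pI j, ?_⟩
  filter_upwards [hev2, hev3, eventually_all.mpr hIb, eventually_ge_atTop 1] with M h2 h3 hIb hM j ε x
    hε hεle
  have hM0 : (1 : ℝ) ≤ M := by exact_mod_cast hM
  have hsum : ∀ j, KI j ≤ ∑ j, KI j := fun j =>
    Finset.single_le_sum (f := KI) (fun i _ => (hKI i).le) (Finset.mem_univ j)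
  have hsump : ∀ j, pI j ≤ ∑ j, pI j := fun j =>
    Finset.single_le_sum (f := pI) (fun i _ => Nat.zero_le _) (Finset.mem_univ j)
  have hsum0 : 0 ≤ ∑ j, KI j := (hKI j).le.trans (hsum j)
  by_cases hx : ∃ i ∈ C.ic j, ρ ≤ |x i - C.xc i|
  · refine (h3 j ε x hε hεle hx).trans ?_
    have e1 : Real.exp (M * (C.ka v1 lam ε j x - δ3)) ≤ Real.exp (M * C.ka v1 lam ε j x) := by
      apply Real.exp_le_exp.2
      apply mul_le_mul_of_nonneg_left _ (by linarith)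
      linarith
    have e2 : (M : ℝ) ^ p3 ≤ (M : ℝ) ^ (p3 + p2 + ∑ j, pI j) :=
      pow_le_pow_right₀ hM0 (by omega)
    have e3 : K3 ≤ K3 + K2 + ∑ j, KI j := by linarith
    have e4 : (0 : ℝ) < (M : ℝ) ^ p3 := by positivity
    have e5 : 0 < K3 + K2 + ∑ j, KI j := by linarith
    gcongr
  · have hx2 : ¬ ∃ i ∈ C.ic j, ρ2 < |x i - C.xc i| := by
      rintro ⟨i, hi, hi2⟩
      exact hx ⟨i, hi, (hρa.trans hi2.le)⟩
    have hx3 : ¬ ∃ i ∈ C.ic j, ρ < |x i - C.xc i| := by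
      rintro ⟨i, hi, hi2⟩
      exact hx ⟨i, hi, hi2.le⟩
    obtain ⟨g1, g2⟩ := U4_x_near hρ0.le hx3
    have ha : (Tr.par j) ∈ C.Op → |U4_x C x (Tr.par j)| ≤ xl (C.θ (Tr.par j)) (v1 (Tr.par j)) :=
      fun h => hxl _ h _ (g1.trans hρc)
    have hb : j.succ ∈ C.Op → |U4_x C x j.succ| ≤ xl (C.θ j.succ) (v1 j.succ) :=
      fun h => hxl _ h _ (g2.trans hρc)
    have t1 := h2 j ε x hx2
    have e1 : ∀ s : ℝ, feF C F v1 ε M j x s = _ := fun s => U4_fe v1 ε M j x s ha hb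
    have hca : (Tr.par j) ∉ C.Op → U4_x C x (Tr.par j) = C.xc (Tr.par j) := by
      intro h
      unfold U4_x
      rw [dif_neg h]
    have hcb : j.succ ∉ C.Op → U4_x C x j.succ = C.xc j.succ := by
      intro h
      unfold U4_x
      rw [dif_neg h]
    have t2 := hIb j r hr0 ((min_le_right _ _).trans (hρ1' j)) (U4_x C x (Tr.par j))
      (U4_x C x j.succ) ((g1.trans hρb).trans (hρ1' j)) ((g2.trans hρb).trans (hρ1' j)) hca hcb
    simp only [e1] at t1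
    rw [← U4_Lw hC hE j ha hb] at t2
    rw [← U4_pt_eq v1 ε x _ ha, ← U4_pt_eq v1 ε x _ hb] at t1 t2
    rw [← U4_ka] at t2
    have t3 := (norm_le_norm_sub_add _ _).trans (add_le_add t1 t2)
    refine t3.trans ?_
    have e2 : Real.exp (M * (C.ka v1 lam ε j x - δ2)) ≤ Real.exp (M * C.ka v1 lam ε j x) := by
      apply Real.exp_le_exp.2
      apply mul_le_mul_of_nonneg_left _ (by linarith)
      linarith
    have e3 : (M : ℝ) ^ p2 ≤ (M : ℝ) ^ (p3 + p2 + ∑ j, pI j) :=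
      pow_le_pow_right₀ hM0 (by omega)
    have e4 : (M : ℝ) ^ pI j ≤ (M : ℝ) ^ (p3 + p2 + ∑ j, pI j) :=
      pow_le_pow_right₀ hM0 (by have := hsump j; omega)
    have e5 := Real.exp_pos (M * C.ka v1 lam ε j x)
    have e6 : (0 : ℝ) < (M : ℝ) ^ (p3 + p2 + ∑ j, pI j) := by positivity
    calc K2 * (M : ℝ) ^ p2 * Real.exp (M * (C.ka v1 lam ε j x - δ2)) +
          KI j * (M : ℝ) ^ pI j * Real.exp (M * C.ka v1 lam ε j x)
        ≤ K2 * (M : ℝ) ^ (p3 + p2 + ∑ j, pI j) * Real.exp (M * C.ka v1 lam ε j x) +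
          (∑ j, KI j) * (M : ℝ) ^ (p3 + p2 + ∑ j, pI j) * Real.exp (M * C.ka v1 lam ε j x) := by
          have := hsum j
          have := hKI j
          gcongr
      _ = (K2 + ∑ j, KI j) * ((M : ℝ) ^ (p3 + p2 + ∑ j, pI j) *
          Real.exp (M * C.ka v1 lam ε j x)) := by ring
      _ ≤ (K3 + K2 + ∑ j, KI j) * ((M : ℝ) ^ (p3 + p2 + ∑ j, pI j) *
          Real.exp (M * C.ka v1 lam ε j x)) := by
          apply mul_le_mul_of_nonneg_right _ (by positivity)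
          linarith
      _ = _ := by ring
end Pool.Agent.AT.SU
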